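import Mathlib
import Pool.Agent.H36.Vin.Sob
import Pool.Agent.H47.Vin.Comb

/-!
# The cut symbol `phi p m`: norm and tail estimates
-/

namespace Pool.Agent.H47.Vin

open scoped BigOperators Topology
open Metric Filter Set MeasureTheory

theorem sum_inv_abs_le (N : ℕ) (s : Finset ℤ) (hs : ∀ n ∈ s, n ≠ 0 ∧ |n| ≤ N) :
    ∑ n ∈ s, 1 / |(n : ℝ)| ≤ 2 * (1 + Real.log N) := by
  classical
  have key : ∀ u : Finset ℤ, (∀ n ∈ u, 0 < n ∧ n ≤ N) → ∑ n ∈ u, 1 / |(n : ℝ)| ≤ 1 + Real.log N := by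
    intro u hu
    have h1 : u ⊆ (Finset.Icc 1 N).map ⟨fun n : ℕ => (n : ℤ), Nat.cast_injective⟩ := by
      intro n hn
      rw [Finset.mem_map]
      obtain ⟨h2, h3⟩ := hu n hn
      refine ⟨n.toNat, ?_, ?_⟩
      · rw [Finset.mem_Icc]
        omega
      · show ((n.toNat : ℕ) : ℤ) = n
        omega
    calc ∑ n ∈ u, 1 / |(n : ℝ)|
        ≤ ∑ n ∈ (Finset.Icc 1 N).map ⟨fun n : ℕ => (n : ℤ), Nat.cast_injective⟩, 1 / |(n : ℝ)| :=
          Finset.sum_le_sum_of_subset_of_nonneg h1 fun _ _ _ => by positivity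
      _ = ((harmonic N : ℚ) : ℝ) := by
          rw [Finset.sum_map, harmonic_eq_sum_Icc]
          push_cast
          refine Finset.sum_congr rfl fun n _ => ?_
          simp
      _ ≤ 1 + Real.log N := harmonic_le_one_add_log N
  have h1 := key (s.filter fun n => 0 < n) (fun n hn => by
    rw [Finset.mem_filter] at hn
    have := (hs n hn.1).2
    rw [abs_of_pos hn.2] at this
    exact ⟨hn.2, this⟩)
  have h2 := key ((s.filter fun n => ¬ 0 < n).map ⟨fun n : ℤ => -n, neg_injective⟩) (fun n hn => by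
    rw [Finset.mem_map] at hn
    obtain ⟨m, hm, rfl⟩ := hn
    rw [Finset.mem_filter] at hm
    obtain ⟨h3, h4⟩ := hs m hm.1
    rw [abs_of_nonpos (not_lt.1 hm.2)] at h4
    refine ⟨?_, h4⟩
    show 0 < -m
    omega)
  rw [Finset.sum_map] at h2
  have h3 : ∑ n ∈ s.filter (fun n => ¬ 0 < n), 1 / |((((⟨fun n : ℤ => -n, neg_injective⟩ : ℤ ↪ ℤ) n : ℤ)) : ℝ)|
      = ∑ n ∈ s.filter (fun n => ¬ 0 < n), 1 / |(n : ℝ)| := by
    refine Finset.sum_congr rfl fun n _ => ?_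
    simp
  rw [h3] at h2
  rw [← Finset.sum_filter_add_sum_filter_not s (fun n => 0 < n)]
  linarith

theorem abs_cc_le_one {T : ℝ} (hT0 : 0 ≤ T) (hT : T ≤ Real.pi) (n : ℤ) : |cc T n| ≤ 1 := by
  have hpi := Real.pi_gt_three
  rcases eq_or_ne n 0 with rfl | hn
  · unfold cc
    rw [if_pos rfl, abs_of_nonneg (by positivity)]
    exact (div_le_one (by linarith)).2 hT
  · refine (abs_cc_le T n hn).trans ?_
    have h1 : (1:ℝ) ≤ |(n:ℝ)| := by exact_mod_cast Int.one_le_abs hn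
    rw [div_le_one (by positivity)]
    nlinarith

theorem norm_co_phi_le_two {p m : ℕ} (hp : 1 ≤ p) (hpm : p ≤ m) (n : ℤ) :
    ‖co (phi p m) n‖ ≤ 2 := by
  rw [co_phi hpm, Complex.norm_real, Real.norm_eq_abs]
  have h0 := (Tp_pos p).le
  have h1 := Tp_le_pi hp
  have h2 := abs_cc_le_one h0 h1 n
  have h3 := abs_cc_le_one h0 h1 (n - 2 ^ m)
  exact (abs_sub _ _).trans (by linarith)

theorem norm_co_phi_near {p m : ℕ} (hpm : p ≤ m) {n : ℤ} (h0 : n ≠ 0) (h1 : n ≠ 2 ^ m) :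
    ‖co (phi p m) n‖ ≤ 1 / 3 * (1 / |(n : ℝ)| + 1 / |((n - 2 ^ m : ℤ) : ℝ)|) := by
  rw [co_phi hpm, Complex.norm_real, Real.norm_eq_abs]
  refine (phi_coef_le hpm n h0 h1).trans ?_
  have hpi := Real.pi_gt_three
  have hn0 : 0 < |(n : ℝ)| := abs_pos.2 (by exact_mod_cast h0)
  have h1' : n - 2 ^ m ≠ 0 := sub_ne_zero.2 h1
  have hn1 : 0 < |((n - 2 ^ m : ℤ) : ℝ)| := abs_pos.2 (by exact_mod_cast h1')
  have e : ((n - 2 ^ m : ℤ) : ℝ) = (n : ℝ) - 2 ^ m := by push_cast; ring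
  rw [e] at hn1 ⊢
  have h2 : (2:ℝ) ^ m ≤ |(n : ℝ)| + |(n : ℝ) - 2 ^ m| := by
    calc (2:ℝ) ^ m = (n : ℝ) - ((n : ℝ) - 2 ^ m) := by ring
      _ ≤ |(n : ℝ) - ((n : ℝ) - 2 ^ m)| := le_abs_self _
      _ ≤ _ := abs_sub _ _
  rw [div_le_iff₀ (by positivity)]
  have h3 : 1 / 3 * (1 / |(n : ℝ)| + 1 / |(n : ℝ) - 2 ^ m|) * (Real.pi * |(n : ℝ)| * |(n : ℝ) - 2 ^ m|)
      = Real.pi / 3 * (|(n : ℝ)| + |(n : ℝ) - 2 ^ m|) := by
    field_simp
    ring
  rw [h3]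
  have h4 : 1 ≤ Real.pi / 3 := by linarith
  nlinarith [abs_nonneg (n : ℝ), abs_nonneg ((n : ℝ) - 2 ^ m)]

theorem norm_co_phi_far {p m : ℕ} (hpm : p ≤ m) {n : ℤ} (h : 2 * 2 ^ m < |n|) :
    ‖co (phi p m) n‖ ≤ 2 * 2 ^ m / 3 * (1 / (n : ℝ)) ^ 2 := by
  have hM : (0:ℤ) < 2 ^ m := by positivity
  have hMR : (0:ℝ) < 2 ^ m := by positivity
  have h0 : n ≠ 0 := by
    rintro rfl
    rw [abs_zero] at h
    linarith
  have h1 : n ≠ 2 ^ m := by
    rintro rfl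
    rw [abs_of_pos hM] at h
    linarith
  have hpi := Real.pi_gt_three
  rw [co_phi hpm, Complex.norm_real, Real.norm_eq_abs]
  refine (phi_coef_le hpm n h0 h1).trans ?_
  have hR : (2 * 2 ^ m : ℝ) < |(n : ℝ)| := by exact_mod_cast h
  have h2 : |(n : ℝ)| / 2 ≤ |(n : ℝ) - 2 ^ m| := by
    have := abs_sub_abs_le_abs_sub (n : ℝ) (2 ^ m)
    rw [abs_of_pos hMR] at this
    linarith
  have hn0 : 0 < |(n : ℝ)| := by linarith
  have hn1 : 0 < |(n : ℝ) - 2 ^ m| := by linarith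
  have e : (1 / (n : ℝ)) ^ 2 = 1 / (|(n:ℝ)| * |(n:ℝ)|) := by
    rw [div_pow, one_pow, ← sq, sq_abs]
  rw [e, mul_one_div, div_div, div_le_div_iff₀ (by positivity) (by positivity)]
  have h5 : |(n:ℝ)| * |(n:ℝ)| ≤ 2 * (|(n:ℝ)| * |(n:ℝ) - 2 ^ m|) := by nlinarith
  have h6 : 0 ≤ |(n:ℝ)| * |(n:ℝ) - 2 ^ m| := by positivity
  have h7 : 3 * (|(n:ℝ)| * |(n:ℝ)|) ≤ 2 * (Real.pi * |(n:ℝ)| * |(n:ℝ) - 2 ^ m|) := by nlinarith
  nlinarith

/-- far on the left -/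
theorem norm_co_phi_left {p m : ℕ} (hpm : p ≤ m) {n : ℤ} (h : n < 0) :
    ‖co (phi p m) n‖ ≤ 2 ^ m / 3 * (1 / (n : ℝ)) ^ 2 := by
  have hM : (0:ℤ) < 2 ^ m := by positivity
  have hMR : (0:ℝ) < 2 ^ m := by positivity
  have h0 : n ≠ 0 := h.ne
  have h1 : n ≠ 2 ^ m := by
    rintro rfl
    linarith
  have hpi := Real.pi_gt_three
  rw [co_phi hpm, Complex.norm_real, Real.norm_eq_abs]
  refine (phi_coef_le hpm n h0 h1).trans ?_
  have hR : (n : ℝ) < 0 := by exact_mod_cast h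
  have h2 : |(n : ℝ)| ≤ |(n : ℝ) - 2 ^ m| := by
    rw [abs_of_neg hR, abs_of_neg (by linarith)]
    linarith
  have hn0 : 0 < |(n : ℝ)| := abs_pos.2 hR.ne
  have hn1 : 0 < |(n : ℝ) - 2 ^ m| := by linarith
  have e : (1 / (n : ℝ)) ^ 2 = 1 / (|(n:ℝ)| * |(n:ℝ)|) := by
    rw [div_pow, one_pow, ← sq, sq_abs]
  rw [e, mul_one_div, div_div, div_le_div_iff_of_pos_left hMR (by positivity) (by positivity)]
  have h6 : |(n:ℝ)| * |(n:ℝ)| ≤ |(n:ℝ)| * |(n:ℝ) - 2 ^ m| := by gcongr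
  nlinarith [mul_nonneg hn0.le hn1.le]

theorem norm_phi_le {p m : ℕ} (hp : 1 ≤ p) (hpm : p ≤ m) : ‖phi p m‖ ≤ 20 * (1 + m) := by
  classical
  rw [norm_eq]
  refine (summable_co _).tsum_le_of_sum_le fun s => ?_
  have hM : (0:ℤ) < 2 ^ m := by positivity
  have hMR : (0:ℝ) < 2 ^ m := by positivity
  rw [← Finset.sum_filter_add_sum_filter_not s (fun n => 2 * 2 ^ m < |n|)]
  have h1 : ∑ n ∈ s.filter (fun n => 2 * 2 ^ m < |n|), ‖co (phi p m) n‖ ≤ 1 := by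
    calc ∑ n ∈ s.filter (fun n => 2 * 2 ^ m < |n|), ‖co (phi p m) n‖
        ≤ ∑ n ∈ s.filter (fun n => 2 * 2 ^ m < |n|), 2 * 2 ^ m / 3 * (1 / (n : ℝ)) ^ 2 :=
          Finset.sum_le_sum fun n hn => norm_co_phi_far hpm (Finset.mem_filter.1 hn).2
      _ = 2 * 2 ^ m / 3 * ∑ n ∈ s.filter (fun n => 2 * 2 ^ m < |n|), (1 / (n : ℝ)) ^ 2 := by
          rw [Finset.mul_sum]
      _ ≤ 2 * 2 ^ m / 3 * (2 / ((2 * 2 ^ m : ℕ) : ℝ)) := by
          refine mul_le_mul_of_nonneg_left ?_ (by positivity)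
          refine sum_inv_sq_int_le (2 * 2 ^ m) (by positivity) _ fun n hn => ?_
          have := (Finset.mem_filter.1 hn).2
          push_cast
          exact this
      _ ≤ 1 := by
          push_cast
          rw [show 2 * 2 ^ m / 3 * (2 / (2 * (2:ℝ) ^ m)) = 2 / 3 by field_simp]
          norm_num
  set u := s.filter (fun n => ¬ 2 * 2 ^ m < |n|) with hu
  have hu' : ∀ n ∈ u, |n| ≤ 2 * 2 ^ m := fun n hn => not_lt.1 (Finset.mem_filter.1 hn).2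
  rw [← Finset.sum_filter_add_sum_filter_not u (fun n => n = 0 ∨ n = 2 ^ m)]
  have h2 : ∑ n ∈ u.filter (fun n => n = 0 ∨ n = 2 ^ m), ‖co (phi p m) n‖ ≤ 4 := by
    have h3 : u.filter (fun n => n = 0 ∨ n = 2 ^ m) ⊆ ({0, 2 ^ m} : Finset ℤ) := by
      intro n hn
      have := (Finset.mem_filter.1 hn).2
      simpa using this
    have h4 : (u.filter (fun n => n = 0 ∨ n = 2 ^ m)).card ≤ 2 :=
      (Finset.card_le_card h3).trans Finset.card_le_two
    calc ∑ n ∈ u.filter (fun n => n = 0 ∨ n = 2 ^ m), ‖co (phi p m) n‖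
        ≤ ∑ n ∈ u.filter (fun n => n = 0 ∨ n = 2 ^ m), (2:ℝ) :=
          Finset.sum_le_sum fun n _ => norm_co_phi_le_two hp hpm n
      _ = (u.filter (fun n => n = 0 ∨ n = 2 ^ m)).card * 2 := by
          rw [Finset.sum_const, nsmul_eq_mul]
      _ ≤ 2 * 2 := by
          gcongr
          exact_mod_cast h4
      _ = 4 := by norm_num
  set v := u.filter (fun n => ¬ (n = 0 ∨ n = 2 ^ m)) with hv
  have hv' : ∀ n ∈ v, |n| ≤ 2 * 2 ^ m ∧ n ≠ 0 ∧ n ≠ 2 ^ m := fun n hn => by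
    rw [hv, Finset.mem_filter, not_or] at hn
    exact ⟨hu' n hn.1, hn.2.1, hn.2.2⟩
  have hlog : Real.log ((2 ^ (m + 2) : ℕ) : ℝ) ≤ 0.7 * (m + 2) := by
    push_cast
    rw [Real.log_pow]
    push_cast
    have := Real.log_two_lt_d9
    have h5 : (0:ℝ) ≤ (m : ℝ) + 2 := by positivity
    nlinarith
  have h3 : ∑ n ∈ v, ‖co (phi p m) n‖ ≤ 4 / 3 * (1 + 0.7 * (m + 2)) := by
    have h4 : ∑ n ∈ v, 1 / |(n : ℝ)| ≤ 2 * (1 + Real.log ((2 ^ (m + 2) : ℕ) : ℝ)) := by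
      refine sum_inv_abs_le _ v fun n hn => ⟨(hv' n hn).2.1, ?_⟩
      have := (hv' n hn).1
      push_cast
      rw [pow_add]
      linarith
    have h5 : ∑ n ∈ v, 1 / |((n - 2 ^ m : ℤ) : ℝ)| ≤ 2 * (1 + Real.log ((2 ^ (m + 2) : ℕ) : ℝ)) := by
      have h6 := sum_inv_abs_le (2 ^ (m + 2))
        (v.map ⟨fun n : ℤ => n - 2 ^ m, sub_left_injective⟩) (fun n hn => by
          rw [Finset.mem_map] at hn
          obtain ⟨k, hk, rfl⟩ := hn
          obtain ⟨h7, h8, h9⟩ := hv' k hk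
          refine ⟨sub_ne_zero.2 h9, ?_⟩
          show |k - 2 ^ m| ≤ _
          refine (abs_sub _ _).trans ?_
          rw [abs_of_pos hM]
          push_cast
          rw [pow_add]
          linarith)
      rw [Finset.sum_map] at h6
      exact h6
    calc ∑ n ∈ v, ‖co (phi p m) n‖
        ≤ ∑ n ∈ v, 1 / 3 * (1 / |(n : ℝ)| + 1 / |((n - 2 ^ m : ℤ) : ℝ)|) :=
          Finset.sum_le_sum fun n hn => norm_co_phi_near hpm (hv' n hn).2.1 (hv' n hn).2.2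
      _ = 1 / 3 * (∑ n ∈ v, 1 / |(n : ℝ)| + ∑ n ∈ v, 1 / |((n - 2 ^ m : ℤ) : ℝ)|) := by
          rw [← Finset.mul_sum, Finset.sum_add_distrib]
      _ ≤ 4 / 3 * (1 + 0.7 * (m + 2)) := by linarith
  have hm0 : (0:ℝ) ≤ m := Nat.cast_nonneg m
  linarith

/-- `res s` as a continuous linear map -/
noncomputable def resCLM (s : Set ℤ) : W →L[ℂ] W :=
  LinearMap.mkContinuous
    { toFun := res s
      map_add' := res_add s
      map_smul' := res_smul s } 1 (fun f => by rw [one_mul]; exact norm_res_le s f)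

theorem resCLM_apply (s : Set ℤ) (f : W) : resCLM s f = res s f := rfl

theorem res_mono_mul (s : Set ℤ) (k : ℤ) (f : W) :
    res s (mono k * f) = mono k * res {n | n + k ∈ s} f := ext_co fun n => by
  rw [co_mono_mul, co_res, co_res, co_mono_mul]
  have : (n - k ∈ {n | n + k ∈ s}) ↔ n ∈ s := by
    show n - k + k ∈ s ↔ n ∈ s
    rw [sub_add_cancel]
  by_cases h : n ∈ s
  · rw [if_pos h, if_pos (this.2 h)]
  · rw [if_neg h, if_neg (fun h' => h (this.1 h'))]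

theorem norm_res_mono_mul_le (s : Set ℤ) (k : ℤ) (f : W) :
    ‖res s (mono k * f)‖ ≤ ‖res {n | n + k ∈ s} f‖ := by
  rw [res_mono_mul]
  refine (norm_mul_le _ _).trans ?_
  rw [norm_mono, one_mul]

/-- left tail of the cut -/
theorem tail_phi_left {p m : ℕ} (hpm : p ≤ m) {Q : ℕ} (hQ : 0 < Q) (s : Set ℤ)
    (hs : ∀ n ∈ s, n < -(Q : ℤ)) : ‖res s (phi p m)‖ ≤ 2 ^ m / 3 * (2 / Q) := by
  classical
  rw [norm_eq]
  refine (summable_co _).tsum_le_of_sum_le fun u => ?_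
  rw [← Finset.sum_filter_add_sum_filter_not u (fun n => n ∈ s)]
  have h2 : ∑ n ∈ u.filter (fun n => ¬ n ∈ s), ‖co (res s (phi p m)) n‖ = 0 := by
    refine Finset.sum_eq_zero fun n hn => ?_
    rw [co_res_of_notMem (Finset.mem_filter.1 hn).2, norm_zero]
  rw [h2, add_zero]
  calc ∑ n ∈ u.filter (fun n => n ∈ s), ‖co (res s (phi p m)) n‖
      ≤ ∑ n ∈ u.filter (fun n => n ∈ s), 2 ^ m / 3 * (1 / (n : ℝ)) ^ 2 :=
        Finset.sum_le_sum fun n hn => by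
          have h3 := (Finset.mem_filter.1 hn).2
          rw [co_res_of_mem h3]
          exact norm_co_phi_left hpm (by have := hs n h3; omega)
    _ = 2 ^ m / 3 * ∑ n ∈ u.filter (fun n => n ∈ s), (1 / (n : ℝ)) ^ 2 := by rw [Finset.mul_sum]
    _ ≤ 2 ^ m / 3 * (2 / Q) := by
        refine mul_le_mul_of_nonneg_left ?_ (by positivity)
        refine sum_inv_sq_int_le Q hQ _ fun n hn => ?_
        have := hs n (Finset.mem_filter.1 hn).2
        rw [abs_of_neg (by omega)]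
        omega

theorem mul_log_inv_le {x : ℝ} (h0 : 0 < x) : x * (-Real.log x) ≤ 2 * Real.sqrt x := by
  have hs : 0 < Real.sqrt x := Real.sqrt_pos.2 h0
  have h1 := Real.log_le_sub_one_of_pos (inv_pos.2 hs)
  rw [Real.log_inv, Real.log_sqrt h0.le] at h1
  have h2 : -Real.log x ≤ 2 * (Real.sqrt x)⁻¹ := by linarith
  calc x * (-Real.log x) ≤ x * (2 * (Real.sqrt x)⁻¹) := by gcongr
    _ = 2 * (Real.sqrt x * Real.sqrt x * (Real.sqrt x)⁻¹) := by
        rw [Real.mul_self_sqrt h0.le]; ring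
    _ = 2 * Real.sqrt x := by field_simp

theorem cut_tail {p m : ℕ} (hp : 1 ≤ p) (hpm : p ≤ m) {x : ℝ} (h0 : 0 < x) (h1 : x ≤ 1) :
    ‖res {n : ℤ | n < 2 ^ (m - 1)} (phi p m * Gc (2 ^ m) x)‖
      ≤ 20 * (x * (1 + m) + Real.sqrt x) := by
  have hx : 0 ≤ 1 - x := by linarith
  set S : Set ℤ := {n : ℤ | n < 2 ^ (m - 1)} with hS
  have hsum := summable_Gc (M := 2 ^ m) h0 h1
  have hM : (2:ℤ) ^ m = 2 * 2 ^ (m - 1) := by
    obtain ⟨k, rfl⟩ : ∃ k, m = k + 1 := ⟨m - 1, by omega⟩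
    rw [Nat.add_sub_cancel, pow_succ, mul_comm]
  have e1 : res S (phi p m * Gc (2 ^ m) x)
      = ∑' l : ℕ, res S (phi p m * (((x * (-(1 - x)) ^ l : ℝ) : ℂ) • mono ((2 ^ m * l : ℕ) : ℤ))) := by
    rw [Gc, ← hsum.tsum_mul_left, ← resCLM_apply, (resCLM S).map_tsum (hsum.mul_left _)]
    rfl
  rw [e1]
  have hterm : ∀ l : ℕ, ‖res S (phi p m * (((x * (-(1 - x)) ^ l : ℝ) : ℂ) • mono ((2 ^ m * l : ℕ) : ℤ)))‖
      ≤ x * (1 - x) ^ l * ‖res {n | n + ((2 ^ m * l : ℕ) : ℤ) ∈ S} (phi p m)‖ := by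
    intro l
    rw [mul_smul_comm, res_smul, norm_smul, mul_comm (phi p m)]
    have h2 : ‖((x * (-(1 - x)) ^ l : ℝ) : ℂ)‖ = x * (1 - x) ^ l := by
      rw [Complex.norm_real, norm_mul, norm_pow, norm_neg, Real.norm_of_nonneg h0.le,
        Real.norm_of_nonneg hx]
    rw [h2]
    exact mul_le_mul_of_nonneg_left (norm_res_mono_mul_le _ _ _) (by positivity)
  have hlog := Real.hasSum_pow_div_log_of_abs_lt_one (x := 1 - x) (by
    rw [abs_of_nonneg hx]; linarith)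
  rw [sub_sub_cancel] at hlog
  have hlog' := hlog.mul_left (x * (4 / 3))
  have hb : HasSum (fun l : ℕ => if l = 0 then x * ‖phi p m‖ else x * (4 / 3) * ((1 - x) ^ l / l))
      (x * ‖phi p m‖ + x * (4 / 3) * (-Real.log x)) := by
    have h2 : HasSum (fun l : ℕ => if l + 1 = 0 then x * ‖phi p m‖
        else x * (4 / 3) * ((1 - x) ^ (l + 1) / ((l + 1 : ℕ) : ℝ))) (x * (4 / 3) * (-Real.log x)) := by
      have h3 : (fun l : ℕ => if l + 1 = 0 then x * ‖phi p m‖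
          else x * (4 / 3) * ((1 - x) ^ (l + 1) / ((l + 1 : ℕ) : ℝ)))
          = fun l : ℕ => x * (4 / 3) * ((1 - x) ^ (l + 1) / (l + 1)) := by
        funext l
        rw [if_neg (Nat.succ_ne_zero l)]
        push_cast
        rfl
      rw [h3]
      exact hlog'
    have := (hasSum_nat_add_iff (f := fun l : ℕ => if l = 0 then x * ‖phi p m‖
      else x * (4 / 3) * ((1 - x) ^ l / l)) 1).1 h2
    simpa [add_comm] using this
  have hle : ∀ l : ℕ, ‖res S (phi p m * (((x * (-(1 - x)) ^ l : ℝ) : ℂ) • mono ((2 ^ m * l : ℕ) : ℤ)))‖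
      ≤ if l = 0 then x * ‖phi p m‖ else x * (4 / 3) * ((1 - x) ^ l / l) := by
    intro l
    refine (hterm l).trans ?_
    split_ifs with hl
    · rw [hl, pow_zero, mul_one]
      exact mul_le_mul_of_nonneg_left (norm_res_le _ _) h0.le
    · obtain ⟨k, rfl⟩ : ∃ k, l = k + 1 := ⟨l - 1, by omega⟩
      have h3 := tail_phi_left hpm (Q := (2 * k + 1) * 2 ^ (m - 1)) (by positivity)
        {n | n + ((2 ^ m * (k + 1) : ℕ) : ℤ) ∈ S} (fun n hn => by
          have h4 : n + ((2 ^ m * (k + 1) : ℕ) : ℤ) < 2 ^ (m - 1) := hn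
          push_cast at h4 ⊢
          rw [hM] at h4
          linarith)
      have h5 : (2:ℝ) ^ m / 3 * (2 / (((2 * k + 1) * 2 ^ (m - 1) : ℕ) : ℝ)) ≤ 4 / 3 * (1 / ((k + 1 : ℕ) : ℝ)) := by
        have hMr : (2:ℝ) ^ m = 2 * 2 ^ (m - 1) := by exact_mod_cast hM
        push_cast
        rw [hMr]
        have h6 : 2 * (2:ℝ) ^ (m - 1) / 3 * (2 / ((2 * k + 1) * 2 ^ (m - 1))) = 4 / 3 * (1 / (2 * k + 1)) := by
          field_simp
          ring
        rw [h6]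
        have h7 : (0:ℝ) ≤ k := Nat.cast_nonneg k
        gcongr
        linarith
      calc x * (1 - x) ^ (k + 1) * ‖res {n | n + ((2 ^ m * (k + 1) : ℕ) : ℤ) ∈ S} (phi p m)‖
          ≤ x * (1 - x) ^ (k + 1) * (4 / 3 * (1 / ((k + 1 : ℕ) : ℝ))) := by
            gcongr
            exact h3.trans h5
        _ = _ := by ring
  refine (tsum_of_norm_bounded hb hle).trans ?_
  have h8 := norm_phi_le hp hpm
  have h9 := mul_log_inv_le h0
  have h10 : x * ‖phi p m‖ ≤ x * (20 * (1 + m)) := mul_le_mul_of_nonneg_left h8 h0.le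
  have h11 := Real.sqrt_nonneg x
  nlinarith

end Pool.Agent.H47.Vin
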