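import Mathlib
import Pool.Agent.H47.Vin.W

/-!
# Power series of the elements of the Wiener algebra with nonnegative spectrum
-/

namespace Pool.Agent.H20.Vin

open Pool.Agent.H47.Vin
open scoped BigOperators Topology
open Metric Filter

/-- the power series with the nonnegative coefficients of `a` -/
noncomputable def pw (a : W) (z : ℂ) : ℂ := ∑' n : ℕ, co a n * z ^ n

theorem summable_co_nat (a : W) : Summable fun n : ℕ => ‖co a n‖ :=
  (summable_co a).comp_injective (i := fun n : ℕ => (n : ℤ)) Nat.cast_injective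

theorem norm_pw_term_le (a : W) {z : ℂ} (hz : ‖z‖ ≤ 1) (n : ℕ) :
    ‖co a n * z ^ n‖ ≤ ‖co a n‖ := by
  rw [norm_mul, norm_pow]
  exact mul_le_of_le_one_right (norm_nonneg _) (pow_le_one₀ (norm_nonneg _) hz)

theorem summable_pw (a : W) {z : ℂ} (hz : ‖z‖ ≤ 1) : Summable fun n : ℕ => ‖co a n * z ^ n‖ :=
  Summable.of_nonneg_of_le (fun _ => norm_nonneg _) (norm_pw_term_le a hz) (summable_co_nat a)

theorem norm_pw_le (a : W) {z : ℂ} (hz : ‖z‖ ≤ 1) : ‖pw a z‖ ≤ ‖a‖ := by
  unfold pw
  refine (norm_tsum_le_tsum_norm (summable_pw a hz)).trans ?_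
  refine (Summable.tsum_le_tsum (norm_pw_term_le a hz) (summable_pw a hz)
    (summable_co_nat a)).trans ?_
  rw [norm_eq]
  exact tsum_comp_le_tsum_of_inj (summable_co a) (fun _ => norm_nonneg _) Nat.cast_injective

theorem continuousOn_pw (a : W) : ContinuousOn (pw a) (closedBall 0 1) := by
  unfold pw
  refine continuousOn_tsum (fun n => by fun_prop) (summable_co_nat a) fun n z hz => ?_
  exact norm_pw_term_le a (by simpa using hz) n

theorem differentiableOn_pw (a : W) : DifferentiableOn ℂ (pw a) (ball 0 1) := by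
  unfold pw
  refine Complex.differentiableOn_tsum_of_summable_norm (summable_co_nat a)
    (fun n => by fun_prop) isOpen_ball fun n z hz => ?_
  exact norm_pw_term_le a (by simpa using (mem_ball_zero_iff.1 hz).le) n

theorem diffContOnCl_pw (a : W) : DiffContOnCl ℂ (pw a) (ball 0 1) :=
  ⟨differentiableOn_pw a, by
    rw [closure_ball (0:ℂ) one_ne_zero]; exact continuousOn_pw a⟩

theorem pw_exp {a : W} (ha : Ge 0 a) (t : ℝ) : pw a (Complex.exp (t * Complex.I)) = ev t a := by
  rw [ev_eq]
  unfold pw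
  rw [← (Nat.cast_injective (R := ℤ)).tsum_eq (f := fun n : ℤ =>
    co a n * Complex.exp (n * (t * Complex.I)))]
  · refine tsum_congr fun n => ?_
    rw [← Complex.exp_nat_mul]
    push_cast
    rfl
  · intro n hn
    simp only [Function.mem_support] at hn
    rcases lt_or_ge n 0 with h | h
    · exact absurd (by rw [ha n h, zero_mul]) hn
    · exact ⟨n.toNat, by simp [h]⟩

theorem pw_mul {a b : W} (ha : Ge 0 a) (hb : Ge 0 b) {z : ℂ} (hz : ‖z‖ ≤ 1) :
    pw (a * b) z = pw a z * pw b z := by
  unfold pw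
  rw [tsum_mul_tsum_eq_tsum_sum_range_of_summable_norm (summable_pw a hz) (summable_pw b hz)]
  refine tsum_congr fun n => ?_
  rw [co_mul]
  have h1 : (∑' m : ℤ, co a m * co b (n - m)) = ∑ k ∈ Finset.range (n + 1), co a k * co b (n - k) := by
    rw [← (Nat.cast_injective (R := ℤ)).tsum_eq (f := fun m : ℤ => co a m * co b (n - m))]
    · rw [tsum_eq_sum (s := Finset.range (n + 1))]
      intro k hk
      simp only [Finset.mem_range, not_lt] at hk
      rw [hb _ (by omega), mul_zero]
    · intro m hm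
      simp only [Function.mem_support] at hm
      rcases lt_or_ge m 0 with h | h
      · exact absurd (by rw [ha m h, zero_mul]) hm
      · exact ⟨m.toNat, by simp [h]⟩
  rw [h1, Finset.sum_mul]
  refine Finset.sum_congr rfl fun k hk => ?_
  have hk' : k ≤ n := Nat.lt_succ_iff.1 (Finset.mem_range.1 hk)
  rw [show ((n:ℤ) - (k:ℤ)) = ((n - k : ℕ) : ℤ) by omega, ← Nat.sub_add_cancel hk', pow_add]
  simp only [Nat.add_sub_cancel]
  ring

/-- the circle is parametrised by the exponential -/
theorem exists_exp_of_norm_eq_one {z : ℂ} (hz : ‖z‖ = 1) :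
    ∃ t : ℝ, Complex.exp (t * Complex.I) = z := by
  refine ⟨Complex.arg z, ?_⟩
  have := Complex.norm_mul_exp_arg_mul_I z
  rw [hz] at this
  simpa using this

end Pool.Agent.H20.Vin
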