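import Mathlib
import Pool.Agent.H47.Vin.W
import Pool.Agent.H20.Vin.Pw

/-!
# Lemma D0: continuous on the closed disc, holomorphic inside, boundary values in `W`
-/

namespace Pool.Agent.H20.Vin

open Pool.Agent.H47.Vin
open scoped BigOperators Topology
open Metric Filter Set

theorem ge_zero_of_disc {a : W} {f : ℂ → ℂ} (hf : DiffContOnCl ℂ f (ball 0 1))
    (h : ∀ t : ℝ, ev t a = f (Complex.exp (t * Complex.I))) : Ge 0 a := by
  intro n hn
  obtain ⟨k, hk⟩ : ∃ k : ℕ, n = -(k : ℤ) - 1 := ⟨(-n - 1).toNat, by omega⟩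
  have h0 : (∮ z in C(0, 1), f z * z ^ k) = 0 := by
    refine Complex.circleIntegral_eq_zero_of_differentiable_on_off_countable zero_le_one
      Set.countable_empty ?_ ?_
    · have := hf.continuousOn
      rw [closure_ball (0:ℂ) one_ne_zero] at this
      exact this.mul (by fun_prop)
    · rintro z ⟨hz, _⟩
      exact ((hf.differentiableOn.differentiableAt (isOpen_ball.mem_nhds hz))).mul (by fun_prop)
  rw [circleIntegral] at h0
  have h1 : ∀ t : ℝ, deriv (circleMap 0 1) t • (f (circleMap 0 1 t) * circleMap 0 1 t ^ k)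
      = Complex.I * (ev t a * Complex.exp (-(n * (t * Complex.I)))) := by
    intro t
    rw [deriv_circleMap, h t, hk]
    simp only [circleMap, zero_add, Complex.ofReal_one, one_mul, smul_eq_mul]
    have : Complex.exp (-(((-(k:ℤ) - 1 : ℤ) : ℂ) * (t * Complex.I)))
        = Complex.exp (t * Complex.I) * Complex.exp (t * Complex.I) ^ k := by
      rw [← Complex.exp_nat_mul, ← Complex.exp_add]
      congr 1
      push_cast
      ring
    rw [this]
    ring
  simp only [h1] at h0
  rw [intervalIntegral.integral_const_mul, co_eq_integral] at h0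
  have hpi : (Real.pi : ℂ) ≠ 0 := by exact_mod_cast Real.pi_ne_zero
  simpa [Complex.I_ne_zero, hpi] using h0

theorem eq_pw_of_disc {a : W} {f : ℂ → ℂ} (hf : DiffContOnCl ℂ f (ball 0 1))
    (h : ∀ t : ℝ, ev t a = f (Complex.exp (t * Complex.I))) {z : ℂ} (hz : ‖z‖ ≤ 1) :
    f z = pw a z := by
  have hge := ge_zero_of_disc hf h
  have := Complex.eqOn_closure_of_eqOn_frontier isBounded_ball hf (diffContOnCl_pw a) (fun w hw => by
    rw [frontier_ball (0:ℂ) one_ne_zero] at hw
    obtain ⟨t, rfl⟩ := exists_exp_of_norm_eq_one (by simpa using hw)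
    rw [pw_exp hge, h t])
  exact this (by rw [closure_ball (0:ℂ) one_ne_zero]; simpa using hz)

end Pool.Agent.H20.Vin
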