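import Mathlib
import Pool.Agent.H47.Vin.W
import Pool.Agent.H20.Vin.Pw

/-!
# The disc part: bounds of the inner function by the maximum principle
-/

namespace Pool.Agent.H20.Vin

open Pool.Agent.H47.Vin
open scoped BigOperators Topology
open Metric Filter

/-- the atomic singular inner function `exp (-(1+z)/(1-z))` -/
noncomputable def Sf (z : ℂ) : ℂ := Complex.exp (-(1 + z) / (1 - z))

theorem Sf_ne_zero (z : ℂ) : Sf z ≠ 0 := Complex.exp_ne_zero _

theorem re_cayley (z : ℂ) : (-(1 + z) / (1 - z)).re = -(1 - ‖z‖ ^ 2) / ‖1 - z‖ ^ 2 := by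
  rcases eq_or_ne z 1 with rfl | hz
  · simp
  have h : (1 - z) ≠ 0 := sub_ne_zero.2 hz.symm
  have h2 : Complex.normSq (1 - z) ≠ 0 := by simpa [Complex.normSq_eq_zero] using h
  rw [Complex.div_re, ← Complex.normSq_eq_norm_sq, ← Complex.normSq_eq_norm_sq]
  field_simp
  simp [Complex.normSq_apply]
  ring

theorem norm_Sf (z : ℂ) : ‖Sf z‖ = Real.exp (-(1 - ‖z‖ ^ 2) / ‖1 - z‖ ^ 2) := by
  rw [Sf, Complex.norm_exp, re_cayley]

theorem norm_Sf_le_one {z : ℂ} (hz : ‖z‖ ≤ 1) : ‖Sf z‖ ≤ 1 := by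
  rw [norm_Sf, Real.exp_le_one_iff]
  have h : 0 ≤ 1 - ‖z‖ ^ 2 := by nlinarith [norm_nonneg z]
  exact div_nonpos_of_nonpos_of_nonneg (by linarith) (by positivity)

theorem norm_Sf_eq_one {z : ℂ} (hz : ‖z‖ = 1) : ‖Sf z‖ = 1 := by
  rw [norm_Sf, hz]; simp

theorem differentiableAt_Sf {z : ℂ} (hz : z ≠ 1) : DifferentiableAt ℂ Sf z := by
  unfold Sf
  have h : (1 - z) ≠ 0 := sub_ne_zero.2 hz.symm
  fun_prop (disch := exact h)

/-- maximum principle on the closed disc -/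
theorem norm_le_of_circle {f : ℂ → ℂ} (hf : DiffContOnCl ℂ f (ball 0 1)) {C : ℝ}
    (hC : ∀ z : ℂ, ‖z‖ = 1 → ‖f z‖ ≤ C) {z : ℂ} (hz : ‖z‖ ≤ 1) : ‖f z‖ ≤ C := by
  refine Complex.norm_le_of_forall_mem_frontier_norm_le isBounded_ball hf ?_ ?_
  · intro w hw
    rw [frontier_ball (0:ℂ) one_ne_zero] at hw
    exact hC w (by simpa using hw)
  · rw [closure_ball (0:ℂ) one_ne_zero]
    simpa using hz

/-- Phragmen-Lindelof principle with one exceptional boundary point. -/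
theorem norm_le_one_of_bounded {J : ℂ → ℂ} (hd : DifferentiableOn ℂ J (ball 0 1))
    (hc : ContinuousOn J (closedBall 0 1 \ {1})) (hb : ∃ C, ∀ z, ‖z‖ < 1 → ‖J z‖ ≤ C)
    (h1 : ∀ z : ℂ, ‖z‖ = 1 → z ≠ 1 → ‖J z‖ ≤ 1) {z : ℂ} (hz : ‖z‖ < 1) : ‖J z‖ ≤ 1 := by
  obtain ⟨C, hC⟩ := hb
  have hC0 : 0 ≤ C := (norm_nonneg _).trans (hC 0 (by simp))
  -- bound on the closed disc without the point 1
  have hC' : ∀ w : ℂ, ‖w‖ ≤ 1 → w ≠ 1 → ‖J w‖ ≤ max C 1 := by
    intro w hw hw1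
    rcases lt_or_eq_of_le hw with h | h
    · exact (hC w h).trans (le_max_left _ _)
    · exact (h1 w h hw1).trans (le_max_right _ _)
  have key : ∀ n : ℕ, 1 ≤ n → ‖J z‖ ^ n * ‖1 - z‖ ≤ 2 := by
    intro n hn
    set f : ℂ → ℂ := fun w => if w = 1 then 0 else J w ^ n * (1 - w) with hfdef
    have hfball : ∀ w ∈ ball (0:ℂ) 1, f w = J w ^ n * (1 - w) := by
      intro w hw
      have : w ≠ 1 := by
        rintro rfl
        simp at hw
      simp [hfdef, this]
    have hfd : DifferentiableOn ℂ f (ball 0 1) := by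
      refine DifferentiableOn.congr ?_ hfball
      exact (hd.pow n).mul (by fun_prop)
    have hfc : ContinuousOn f (closedBall 0 1) := by
      intro w hw
      rcases eq_or_ne w 1 with rfl | hw1
      · have hf1 : f 1 = 0 := by simp [hfdef]
        rw [ContinuousWithinAt, hf1]
        refine squeeze_zero_norm' (a := fun w : ℂ => (max C 1) ^ n * ‖1 - w‖) ?_ ?_
        · filter_upwards [self_mem_nhdsWithin] with w hw
          by_cases h : w = 1
          · simp [hfdef, h]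
          · simp only [hfdef, h, if_false, norm_mul, norm_pow]
            gcongr
            exact hC' w (by simpa using hw) h
        · have : Tendsto (fun w : ℂ => (max C 1) ^ n * ‖1 - w‖) (𝓝 1) (𝓝 ((max C 1) ^ n * ‖(1:ℂ) - 1‖)) := by
            apply Continuous.tendsto
            fun_prop
          simp only [sub_self, norm_zero, mul_zero] at this
          exact this.mono_left nhdsWithin_le_nhds
      · have hcw : ContinuousWithinAt (fun w => J w ^ n * (1 - w)) (closedBall 0 1 \ {1}) w :=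
          ((hc w ⟨hw, hw1⟩).pow n).mul (by fun_prop)
        have hcw2 : ContinuousWithinAt (fun w => J w ^ n * (1 - w)) (closedBall 0 1) w := by
          refine hcw.mono_of_mem_nhdsWithin ?_
          refine mem_nhdsWithin.2 ⟨{1}ᶜ, isOpen_compl_singleton, hw1, ?_⟩
          rintro v ⟨hv1, hv2⟩
          exact ⟨hv2, hv1⟩
        refine hcw2.congr_of_eventuallyEq ?_ (by simp [hfdef, hw1])
        have : ∀ᶠ v in 𝓝[closedBall 0 1] w, v ≠ 1 :=
          nhdsWithin_le_nhds (isOpen_compl_singleton.mem_nhds hw1)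
        filter_upwards [this] with v hv
        simp [hfdef, hv]
    have hfcl : DiffContOnCl ℂ f (ball 0 1) := ⟨hfd, by
      rw [closure_ball (0:ℂ) one_ne_zero]; exact hfc⟩
    have hb := norm_le_of_circle hfcl (C := 2) (fun w hw => by
      by_cases h : w = 1
      · simp [hfdef, h]
      · simp only [hfdef, h, if_false, norm_mul, norm_pow]
        have h2 : ‖J w‖ ^ n ≤ 1 := pow_le_one₀ (norm_nonneg _) (h1 w hw h)
        have h3 : ‖1 - w‖ ≤ 2 := (norm_sub_le _ _).trans (by rw [hw, norm_one]; norm_num)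
        calc ‖J w‖ ^ n * ‖1 - w‖ ≤ 1 * 2 := by gcongr
          _ = 2 := by norm_num) hz.le
    rw [hfball z (by simpa using hz), norm_mul, norm_pow] at hb
    exact hb
  by_contra hcon
  rw [not_le] at hcon
  have hz1 : 0 < ‖1 - z‖ := by
    rw [norm_pos_iff, sub_ne_zero]
    rintro rfl
    simp at hz
  have ht := tendsto_pow_atTop_atTop_of_one_lt hcon
  obtain ⟨n, hn1, hn⟩ := ((ht.eventually_gt_atTop (2 / ‖1 - z‖)).and (eventually_ge_atTop 1)).exists
  have := key n hn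
  rw [div_lt_iff₀ hz1] at hn1
  linarith

/-- The disc part of the construction. -/
theorem disc_part (G O1 sig : W) (R : ℕ → W) (d : ℝ → ℝ)
    (hG : Ge 0 G) (hO : Ge 0 O1) (hR : ∀ K, Ge 0 (R K)) (hsig : Ge 0 sig)
    (hs : ∀ z : ℂ, ‖z‖ < 1 → pw sig z = Sf z * (1 - z) ^ 2)
    (hd : ∀ t, 0 < 1 + d t)
    (hGt : ∀ t : ℝ, ‖ev t G‖ ^ 2 = ‖1 - Complex.exp (t * Complex.I)‖ ^ 2 * (1 + d t))
    (hOt : ∀ t : ℝ, ‖ev t O1‖ ^ 2 = 1 / (1 + d t))
    (hlim : ∀ z : ℂ, ‖z‖ < 1 →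
      Tendsto (fun K => pw (sig * R K) z) atTop (𝓝 (pw G z / (1 - z))))
    {C : ℝ} (hbd : ∀ K t, ‖ev t (sig * R K)‖ ≤ C) :
    ∃ T J : ℂ → ℂ, (∀ z, T z = pw G z * pw O1 z / (1 - z)) ∧ (∀ z, T z = Sf z * J z) ∧
      DifferentiableOn ℂ T (ball 0 1) ∧ ContinuousOn T (closedBall 0 1 \ {1}) ∧
      (∀ z, ‖z‖ < 1 → ‖T z‖ ≤ 1) ∧ (∀ z, ‖z‖ = 1 → z ≠ 1 → ‖T z‖ = 1) ∧
      DifferentiableOn ℂ J (ball 0 1) ∧ ContinuousOn J (closedBall 0 1 \ {1}) ∧
      (∀ z, ‖z‖ < 1 → ‖J z‖ ≤ 1) ∧ (∀ z, ‖z‖ = 1 → z ≠ 1 → ‖J z‖ = 1) := by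
  set T : ℂ → ℂ := fun z => pw G z * pw O1 z / (1 - z) with hTdef
  set J : ℂ → ℂ := fun z => T z / Sf z with hJdef
  have hne : ∀ z ∈ ball (0:ℂ) 1, z ≠ 1 := by
    rintro z hz rfl
    simp at hz
  have hTd : DifferentiableOn ℂ T (ball 0 1) := by
    refine ((differentiableOn_pw G).mul (differentiableOn_pw O1)).div (by fun_prop) ?_
    intro z hz
    exact sub_ne_zero.2 (hne z hz).symm
  have hTc : ContinuousOn T (closedBall 0 1 \ {1}) := by
    refine (((continuousOn_pw G).mono Set.sdiff_subset).mul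
      ((continuousOn_pw O1).mono Set.sdiff_subset)).div (by fun_prop) ?_
    intro z hz
    exact sub_ne_zero.2 (fun h => hz.2 h.symm)
  have hT1 : ∀ z : ℂ, ‖z‖ = 1 → z ≠ 1 → ‖T z‖ = 1 := by
    intro z hz hz1
    obtain ⟨t, rfl⟩ := exists_exp_of_norm_eq_one hz
    have hpos : 0 < ‖1 - Complex.exp (t * Complex.I)‖ := by
      rw [norm_pos_iff, sub_ne_zero]; exact hz1.symm
    simp only [hTdef]
    rw [norm_div, norm_mul, pw_exp hG, pw_exp hO]
    have h1 : (‖ev t G‖ * ‖ev t O1‖ / ‖1 - Complex.exp (t * Complex.I)‖) ^ 2 = 1 := by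
      rw [div_pow, mul_pow, hGt, hOt]
      have := (hd t).ne'
      field_simp
    have h0 : 0 ≤ ‖ev t G‖ * ‖ev t O1‖ / ‖1 - Complex.exp (t * Complex.I)‖ := by positivity
    nlinarith [h1, h0]
  have hJd : DifferentiableOn ℂ J (ball 0 1) := by
    refine hTd.div ?_ fun z _ => Sf_ne_zero z
    intro z hz
    exact (differentiableAt_Sf (hne z hz)).differentiableWithinAt
  have hJc : ContinuousOn J (closedBall 0 1 \ {1}) := by
    refine hTc.div ?_ fun z _ => Sf_ne_zero z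
    intro z hz
    exact (differentiableAt_Sf hz.2).continuousAt.continuousWithinAt
  have hJ1 : ∀ z : ℂ, ‖z‖ = 1 → z ≠ 1 → ‖J z‖ = 1 := by
    intro z hz hz1
    simp only [hJdef]
    rw [norm_div, hT1 z hz hz1, norm_Sf_eq_one hz, div_one]
  -- boundedness of J
  have hC0 : 0 ≤ C := (norm_nonneg _).trans (hbd 0 0)
  have hRb : ∀ K, ∀ z : ℂ, ‖z‖ ≤ 1 → ‖pw (R K) z * (1 - z) ^ 2‖ ≤ C := by
    intro K z hz
    refine norm_le_of_circle (f := fun z => pw (R K) z * (1 - z) ^ 2) ?_ ?_ hz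
    · refine ⟨(differentiableOn_pw (R K)).mul (by fun_prop), ?_⟩
      rw [closure_ball (0:ℂ) one_ne_zero]
      exact (continuousOn_pw (R K)).mul (by fun_prop)
    · -- on the circle
      intro w hw
      -- the function sigma is S (1-z)^2 on the circle minus 1 by continuity
      rcases eq_or_ne w 1 with rfl | hw1
      · simpa using hC0
      have hsw : pw sig w = Sf w * (1 - w) ^ 2 := by
        have hcl : w ∈ closure (ball (0:ℂ) 1) := by
          rw [closure_ball (0:ℂ) one_ne_zero]; simp [hw]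
        have hnb : (𝓝[ball (0:ℂ) 1] w).NeBot := mem_closure_iff_nhdsWithin_neBot.1 hcl
        have hA : Tendsto (pw sig) (𝓝[ball (0:ℂ) 1] w) (𝓝 (pw sig w)) :=
          ((continuousOn_pw sig) w (by simp [hw])).mono_left
            (nhdsWithin_mono _ ball_subset_closedBall)
        have hB : Tendsto (fun z => Sf z * (1 - z) ^ 2) (𝓝[ball (0:ℂ) 1] w)
            (𝓝 (Sf w * (1 - w) ^ 2)) := by
          have : ContinuousAt (fun z => Sf z * (1 - z) ^ 2) w :=
            (differentiableAt_Sf hw1).continuousAt.mul (by fun_prop)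
          exact this.tendsto.mono_left nhdsWithin_le_nhds
        refine tendsto_nhds_unique hA (hB.congr' ?_)
        filter_upwards [self_mem_nhdsWithin] with z hz
        exact (hs z (by simpa using hz)).symm
      obtain ⟨t, rfl⟩ := exists_exp_of_norm_eq_one hw
      have h := hbd K t
      rw [← pw_exp (by simpa using hsig.mul (hR K)) t, pw_mul hsig (hR K) (by rw [hw]), hsw] at h
      rw [norm_mul, norm_mul, norm_Sf_eq_one hw, one_mul] at h
      rw [norm_mul]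
      linarith [mul_comm ‖pw (R K) (Complex.exp (t * Complex.I))‖
        ‖(1 - Complex.exp (t * Complex.I)) ^ 2‖]
  have hGb : ∀ z : ℂ, ‖z‖ < 1 → ‖pw G z / (1 - z)‖ ≤ C * ‖Sf z‖ := by
    intro z hz
    have ht := (hlim z hz).norm
    refine le_of_tendsto ht (Eventually.of_forall fun K => ?_)
    rw [pw_mul hsig (hR K) hz.le, hs z hz, norm_mul, norm_mul]
    have := hRb K z hz.le
    rw [norm_mul] at this
    nlinarith [norm_nonneg (Sf z)]
  have hJb : ∃ C', ∀ z, ‖z‖ < 1 → ‖J z‖ ≤ C' := by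
    refine ⟨C * ‖O1‖, fun z hz => ?_⟩
    have hS : 0 < ‖Sf z‖ := norm_pos_iff.2 (Sf_ne_zero z)
    have h1 : J z = pw G z / (1 - z) * pw O1 z / Sf z := by
      simp only [hJdef, hTdef]
      ring
    rw [h1, norm_div, norm_mul, div_le_iff₀ hS]
    calc ‖pw G z / (1 - z)‖ * ‖pw O1 z‖ ≤ (C * ‖Sf z‖) * ‖O1‖ := by
          gcongr
          · exact hGb z hz
          · exact norm_pw_le O1 hz.le
      _ = C * ‖O1‖ * ‖Sf z‖ := by ring
  have hJle : ∀ z, ‖z‖ < 1 → ‖J z‖ ≤ 1 := fun z hz =>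
    norm_le_one_of_bounded hJd hJc hJb (fun w hw hw1 => (hJ1 w hw hw1).le) hz
  have hTJ : ∀ z, T z = Sf z * J z := by
    intro z
    simp only [hJdef]
    field_simp [Sf_ne_zero z]
  refine ⟨T, J, fun z => rfl, hTJ, hTd, hTc, ?_, hT1, hJd, hJc, hJle, hJ1⟩
  intro z hz
  rw [hTJ, norm_mul]
  calc ‖Sf z‖ * ‖J z‖ ≤ 1 * 1 := by
        gcongr
        · exact norm_Sf_le_one hz.le
        · exact hJle z hz
    _ = 1 := by norm_num

end Pool.Agent.H20.Vin
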