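import Mathlib
import Pool.Agent.H47.Vin.W
import Pool.Agent.H20.Vin.Disc

/-!
# Real variable estimates for `S(e^{it}) (1 - e^{it})^2` and for trapezoids
-/

namespace Pool.Agent.H20.Vin

open Pool.Agent.H47.Vin
open scoped BigOperators Topology
open Metric Filter Set

/-- the boundary values of `S(z)(1-z)^2` -/
noncomputable def sgf (x : ℝ) : ℂ :=
  Sf (Complex.exp (x * Complex.I)) * (1 - Complex.exp (x * Complex.I)) ^ 2

/-- the derivative of `sgf` -/
noncomputable def sgf' (x : ℝ) : ℂ :=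
  if x = 0 then 0 else
    Complex.I * Complex.exp (x * Complex.I) * Sf (Complex.exp (x * Complex.I)) *
      (-2 - 2 * (1 - Complex.exp (x * Complex.I)))

theorem norm_exp_I (x : ℝ) : ‖Complex.exp (x * Complex.I)‖ = 1 := Complex.norm_exp_ofReal_mul_I x

theorem norm_one_sub_exp (x : ℝ) : ‖1 - Complex.exp (x * Complex.I)‖ = 2 * |Real.sin (x / 2)| := by
  have h : 1 - Complex.exp (x * Complex.I)
      = Complex.exp ((x / 2 : ℝ) * Complex.I) * (-2 * Complex.I * (Real.sin (x / 2) : ℂ)) := by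
    rw [Complex.ofReal_sin, Complex.sin]
    have h2 : Complex.exp (x * Complex.I)
        = Complex.exp ((x / 2 : ℝ) * Complex.I) * Complex.exp ((x / 2 : ℝ) * Complex.I) := by
      rw [← Complex.exp_add]; congr 1; push_cast; ring
    have h3 : Complex.exp ((x / 2 : ℝ) * Complex.I) * Complex.exp (-((x / 2 : ℝ) : ℂ) * Complex.I) = 1 := by
      rw [← Complex.exp_add]; simp
    rw [h2]
    linear_combination (Complex.exp ((x / 2 : ℝ) * Complex.I) *
      Complex.exp (-((x / 2 : ℝ) : ℂ) * Complex.I) - Complex.exp ((x / 2 : ℝ) * Complex.I) *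
      Complex.exp ((x / 2 : ℝ) * Complex.I)) * Complex.I_sq - h3
  rw [h, norm_mul, norm_exp_I, one_mul, norm_mul, norm_mul, norm_neg, Complex.norm_I, mul_one,
    Complex.norm_real, Real.norm_eq_abs]
  norm_num

theorem norm_one_sub_exp_le (x : ℝ) : ‖1 - Complex.exp (x * Complex.I)‖ ≤ |x| := by
  rw [norm_one_sub_exp]
  have := Real.abs_sin_le_abs (x := x / 2)
  rw [abs_div, abs_two] at this
  linarith

theorem norm_one_sub_exp_ge {x : ℝ} (hx : |x| ≤ Real.pi) :
    2 / Real.pi * |x| ≤ ‖1 - Complex.exp (x * Complex.I)‖ := by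
  rw [norm_one_sub_exp]
  have h := Real.mul_abs_le_abs_sin (x := x / 2) (by rw [abs_div, abs_two]; linarith)
  rw [abs_div, abs_two] at h
  have : 2 / Real.pi * |x| = 2 * (2 / Real.pi * (|x| / 2)) := by ring
  rw [this]
  linarith

theorem norm_sgf (x : ℝ) : ‖sgf x‖ = ‖1 - Complex.exp (x * Complex.I)‖ ^ 2 := by
  rw [sgf, norm_mul, norm_pow, norm_Sf_eq_one (norm_exp_I x), one_mul]

theorem norm_sgf_le (x : ℝ) : ‖sgf x‖ ≤ x ^ 2 := by
  rw [norm_sgf, ← sq_abs x]
  gcongr
  exact norm_one_sub_exp_le x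

theorem norm_sgf_le_four (x : ℝ) : ‖sgf x‖ ≤ 4 := by
  rw [norm_sgf, norm_one_sub_exp]
  have := Real.abs_sin_le_one (x / 2)
  have h0 := abs_nonneg (Real.sin (x / 2))
  nlinarith

theorem norm_sgf_ge {x : ℝ} (hx : |x| ≤ Real.pi) : 4 / Real.pi ^ 2 * x ^ 2 ≤ ‖sgf x‖ := by
  rw [norm_sgf]
  have h := norm_one_sub_exp_ge hx
  have h0 : 0 ≤ 2 / Real.pi * |x| := by positivity
  calc 4 / Real.pi ^ 2 * x ^ 2 = (2 / Real.pi * |x|) ^ 2 := by
        rw [mul_pow, div_pow, sq_abs]; norm_num
    _ ≤ _ := by gcongr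

theorem norm_sgf'_le (x : ℝ) : ‖sgf' x‖ ≤ 6 := by
  unfold sgf'
  split_ifs
  · simp
  · rw [norm_mul, norm_mul, norm_mul, Complex.norm_I, norm_exp_I, norm_Sf_eq_one (norm_exp_I x)]
    have h : ‖1 - Complex.exp (x * Complex.I)‖ ≤ 2 :=
      (norm_sub_le _ _).trans (by rw [norm_one, norm_exp_I]; norm_num)
    calc 1 * 1 * 1 * ‖-2 - 2 * (1 - Complex.exp (x * Complex.I))‖
        ≤ 1 * 1 * 1 * (‖(-2:ℂ)‖ + ‖2 * (1 - Complex.exp (x * Complex.I))‖) := by
          gcongr; exact norm_sub_le _ _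
      _ ≤ 6 := by rw [norm_mul, norm_neg]; norm_num; linarith

theorem exp_ne_one_of_abs_lt {x : ℝ} (hx0 : x ≠ 0) (hx : |x| ≤ Real.pi) :
    Complex.exp (x * Complex.I) ≠ 1 := by
  intro h
  have h1 := norm_one_sub_exp_ge hx
  rw [h, sub_self, norm_zero] at h1
  have : 0 < 2 / Real.pi * |x| := by positivity
  linarith

theorem hasDerivAt_sgf {x : ℝ} (hx : |x| ≤ Real.pi) : HasDerivAt sgf (sgf' x) x := by
  rcases eq_or_ne x 0 with rfl | hx0
  · have h0 : sgf 0 = 0 := by simp [sgf]
    simp only [sgf', if_true]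
    rw [hasDerivAt_iff_isLittleO_nhds_zero]
    simp only [zero_add, h0, sub_zero, smul_zero]
    refine Asymptotics.IsBigO.trans_isLittleO (g := fun h : ℝ => h ^ 2) ?_ ?_
    · exact Asymptotics.isBigO_of_le _ fun h => by
        rw [Real.norm_of_nonneg (sq_nonneg h)]; exact norm_sgf_le h
    · simpa using (Asymptotics.isLittleO_pow_id (𝕜 := ℝ) (n := 2) (by norm_num))
  · have hz := exp_ne_one_of_abs_lt hx0 hx
    set z := Complex.exp (x * Complex.I) with hzdef
    have h1z : (1 - z) ≠ 0 := sub_ne_zero.2 hz.symm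
    have he : HasDerivAt (fun y : ℝ => Complex.exp (y * Complex.I)) (z * Complex.I) x := by
      have := ((Complex.hasDerivAt_exp (x * Complex.I)).comp (x : ℂ)
        ((hasDerivAt_id (x:ℂ)).mul_const Complex.I)).comp_ofReal
      simpa [hzdef] using this
    have hF : HasDerivAt (fun w : ℂ => Sf w * (1 - w) ^ 2) (Sf z * (-2 - 2 * (1 - z))) z := by
      have hq : HasDerivAt (fun w : ℂ => -(1 + w) / (1 - w)) (-2 / (1 - z) ^ 2) z := by
        have hn : HasDerivAt (fun w : ℂ => -(1 + w)) (-1) z := ((hasDerivAt_id z).const_add 1).neg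
        have hd : HasDerivAt (fun w : ℂ => 1 - w) (-1) z := (hasDerivAt_id z).const_sub 1
        refine (hn.div hd h1z).congr_deriv ?_
        field_simp
        ring
      have hS : HasDerivAt Sf (Sf z * (-2 / (1 - z) ^ 2)) z := hq.cexp
      have h2 : HasDerivAt (fun w : ℂ => (1 - w) ^ 2) (2 * (1 - z) * (-1)) z := by
        have hd : HasDerivAt (fun w : ℂ => 1 - w) (-1) z := (hasDerivAt_id z).const_sub 1
        have := hd.pow 2
        refine (this.congr_deriv ?_).congr_of_eventuallyEq (Eventually.of_forall fun w => rfl)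
        simp
      refine (hS.mul h2).congr_deriv ?_
      field_simp
      ring
    have := hF.comp_of_eq x he rfl
    simp only [sgf', hx0, if_false]
    refine this.congr_deriv ?_
    ring

/-- trapezoid: `1` on `[-T, T]`, `0` outside `[-2T, 2T]` -/
noncomputable def trap (T x : ℝ) : ℝ := max 0 (min 1 (2 - |x| / T))

/-- right derivative of the trapezoid -/
noncomputable def trap' (T x : ℝ) : ℝ :=
  if x < -(2 * T) then 0 else if x < -T then 1 / T else if x < T then 0
    else if x < 2 * T then -(1 / T) else 0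

theorem trap_nonneg (T x : ℝ) : 0 ≤ trap T x := le_max_left _ _
theorem trap_le_one (T x : ℝ) : trap T x ≤ 1 := max_le zero_le_one (min_le_left _ _)

theorem trap_eq_one {T x : ℝ} (hT : 0 < T) (h : |x| ≤ T) : trap T x = 1 := by
  unfold trap
  have : |x| / T ≤ 1 := (div_le_one hT).2 h
  rw [min_eq_left (by linarith), max_eq_right zero_le_one]

theorem trap_eq_zero {T x : ℝ} (hT : 0 < T) (h : 2 * T ≤ |x|) : trap T x = 0 := by
  unfold trap
  have : 2 ≤ |x| / T := (le_div_iff₀ hT).2 h
  rw [max_eq_left]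
  exact (min_le_right _ _).trans (by linarith)

theorem trap_eq_mid {T x : ℝ} (hT : 0 < T) (h1 : T ≤ |x|) (h2 : |x| ≤ 2 * T) :
    trap T x = 2 - |x| / T := by
  unfold trap
  have h3 : 1 ≤ |x| / T := (le_div_iff₀ hT).2 (by linarith)
  have h4 : |x| / T ≤ 2 := (div_le_iff₀ hT).2 (by linarith)
  rw [min_eq_right (by linarith), max_eq_right (by linarith)]

theorem continuous_trap (T : ℝ) : Continuous (trap T) := by
  unfold trap; fun_prop

theorem abs_trap'_le {T : ℝ} (hT : 0 < T) (x : ℝ) : |trap' T x| ≤ 1 / T := by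
  unfold trap'
  have : 0 < 1 / T := by positivity
  split_ifs <;> simp [abs_of_pos, hT] <;> positivity

theorem hasDerivWithinAt_trap {T : ℝ} (hT : 0 < T) (x : ℝ) :
    HasDerivWithinAt (trap T) (trap' T x) (Ioi x) x := by
  unfold trap'
  split_ifs with h1 h2 h3 h4
  · have : (trap T) =ᶠ[𝓝 x] fun _ => 0 := by
      filter_upwards [isOpen_Iio.mem_nhds (show x ∈ Iio (-(2 * T)) from h1)] with y hy
      exact trap_eq_zero hT (by rw [abs_of_neg (by simp at hy; linarith)]; simp at hy; linarith)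
    exact ((hasDerivAt_const x (0:ℝ)).congr_of_eventuallyEq this).hasDerivWithinAt
  · have hd : HasDerivAt (fun y : ℝ => 2 + y / T) (1 / T) x := by
      simpa using ((hasDerivAt_id x).div_const T).const_add 2
    refine hd.hasDerivWithinAt.congr_of_eventuallyEq ?_ ?_
    · filter_upwards [self_mem_nhdsWithin,
        mem_nhdsWithin_of_mem_nhds (isOpen_Iio.mem_nhds (show x ∈ Iio (-T) from h2))] with y hy1 hy2
      simp only [mem_Ioi, mem_Iio] at hy1 hy2
      rw [trap_eq_mid hT, abs_of_neg (by linarith)]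
      · ring
      · rw [abs_of_neg (by linarith)]; linarith
      · rw [abs_of_neg (by linarith)]; linarith
    · rw [trap_eq_mid hT, abs_of_neg (by linarith)]
      · ring
      · rw [abs_of_neg (by linarith)]; linarith
      · rw [abs_of_neg (by linarith)]; linarith
  · refine (hasDerivWithinAt_const x (Ioi x) (1:ℝ)).congr_of_eventuallyEq ?_ ?_
    · filter_upwards [self_mem_nhdsWithin,
        mem_nhdsWithin_of_mem_nhds (isOpen_Iio.mem_nhds (show x ∈ Iio T from h3))] with y hy1 hy2
      simp only [mem_Ioi, mem_Iio] at hy1 hy2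
      exact trap_eq_one hT (abs_le.2 ⟨by linarith, by linarith⟩)
    · exact trap_eq_one hT (abs_le.2 ⟨by linarith, by linarith⟩)
  · have hd : HasDerivAt (fun y : ℝ => 2 - y / T) (-(1 / T)) x := by
      simpa using ((hasDerivAt_id x).div_const T).const_sub 2
    refine hd.hasDerivWithinAt.congr_of_eventuallyEq ?_ ?_
    · filter_upwards [self_mem_nhdsWithin,
        mem_nhdsWithin_of_mem_nhds (isOpen_Iio.mem_nhds (show x ∈ Iio (2 * T) from h4))] with y hy1 hy2
      simp only [mem_Ioi, mem_Iio] at hy1 hy2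
      rw [trap_eq_mid hT, abs_of_pos (by linarith)]
      · rw [abs_of_pos (by linarith)]; linarith
      · rw [abs_of_pos (by linarith)]; linarith
    · rw [trap_eq_mid hT, abs_of_pos (by linarith)]
      · rw [abs_of_pos (by linarith)]; linarith
      · rw [abs_of_pos (by linarith)]; linarith
  · refine (hasDerivWithinAt_const x (Ioi x) (0:ℝ)).congr_of_eventuallyEq ?_ ?_
    · filter_upwards [self_mem_nhdsWithin] with y hy1
      simp only [mem_Ioi] at hy1
      exact trap_eq_zero hT (by rw [abs_of_pos (by linarith)]; linarith)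
    · exact trap_eq_zero hT (by rw [abs_of_pos (by linarith)]; linarith)

end Pool.Agent.H20.Vin
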