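import Mathlib
import Pool.Agent.H20.Vin.Sig0

/-!
# The functions `sgf * trap` and `(1 - trap) / sgf`
-/

namespace Pool.Agent.H20.Vin

open Pool.Agent.H47.Vin
open scoped BigOperators Topology
open Metric Filter Set

theorem sgf_ne_zero {x : ℝ} (hx0 : x ≠ 0) (hx : |x| ≤ Real.pi) : sgf x ≠ 0 := by
  have h := norm_sgf_ge hx
  have : 0 < 4 / Real.pi ^ 2 * x ^ 2 := by positivity
  exact norm_pos_iff.1 (this.trans_le h)

theorem sgf_neg_pi : sgf (-Real.pi) = sgf Real.pi := by
  unfold sgf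
  have : Complex.exp (((-Real.pi : ℝ) : ℂ) * Complex.I) = Complex.exp ((Real.pi : ℂ) * Complex.I) := by
    push_cast
    rw [neg_mul, Complex.exp_neg, Complex.exp_pi_mul_I]
    norm_num
  rw [this]

theorem trap_neg (T x : ℝ) : trap T (-x) = trap T x := by
  unfold trap; rw [abs_neg]

/-- `sgf` times a trapezoid -/
noncomputable def skf (T x : ℝ) : ℂ := sgf x * trap T x
noncomputable def skf' (T x : ℝ) : ℂ := sgf' x * trap T x + sgf x * trap' T x

theorem hasDerivWithinAt_skf {T : ℝ} (hT : 0 < T) {x : ℝ} (hx : |x| ≤ Real.pi) :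
    HasDerivWithinAt (skf T) (skf' T x) (Ioi x) x :=
  (hasDerivAt_sgf hx).hasDerivWithinAt.mul (hasDerivWithinAt_trap hT x).ofReal_comp

theorem norm_skf_le {T : ℝ} (hT : 0 < T) (x : ℝ) : ‖skf T x‖ ≤ 4 * T ^ 2 := by
  unfold skf
  rw [norm_mul, Complex.norm_real, Real.norm_of_nonneg (trap_nonneg T x)]
  rcases le_or_gt (2 * T) |x| with h | h
  · rw [trap_eq_zero hT h, mul_zero]; positivity
  · have h1 := norm_sgf_le x
    have h2 : x ^ 2 ≤ (2 * T) ^ 2 := by
      rw [← sq_abs x]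
      exact pow_le_pow_left₀ (abs_nonneg x) h.le 2
    have h3 := trap_le_one T x
    have h4 := trap_nonneg T x
    nlinarith [norm_nonneg (sgf x)]

theorem trap'_eq_zero_of_ge {T x : ℝ} (hT : 0 < T) (h : 2 * T < |x|) : trap' T x = 0 := by
  unfold trap'
  rcases lt_or_ge x 0 with hx | hx
  · rw [abs_of_neg hx] at h
    rw [if_pos (by linarith)]
  · rw [abs_of_nonneg hx] at h
    rw [if_neg (by linarith), if_neg (by linarith), if_neg (by linarith), if_neg (by linarith)]

theorem trap'_eq_zero_of_gt' {T x : ℝ} (hT : 0 < T) (h : 2 * T < |x|) : trap T x = 0 :=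
  trap_eq_zero hT h.le

theorem norm_skf'_le {T : ℝ} (hT : 0 < T) (x : ℝ) : ‖skf' T x‖ ≤ 6 + 4 * T := by
  unfold skf'
  refine (norm_add_le _ _).trans ?_
  rw [norm_mul, norm_mul, Complex.norm_real, Complex.norm_real,
    Real.norm_of_nonneg (trap_nonneg T x), Real.norm_eq_abs]
  have h3 := trap_le_one T x
  have h4 := trap_nonneg T x
  have h5 := norm_sgf'_le x
  refine add_le_add (by nlinarith [norm_nonneg (sgf' x)]) ?_
  rcases lt_or_ge (2 * T) |x| with h | h
  · rw [trap'_eq_zero_of_ge hT h, abs_zero, mul_zero]; positivity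
  · have h1 := norm_sgf_le x
    have h2 : x ^ 2 ≤ (2 * T) ^ 2 := by
      rw [← sq_abs x]
      exact pow_le_pow_left₀ (abs_nonneg x) h 2
    have h6 := abs_trap'_le hT x
    calc ‖sgf x‖ * |trap' T x| ≤ (2 * T) ^ 2 * (1 / T) := by
          gcongr
          exact h1.trans h2
      _ = 4 * T := by field_simp; ring

theorem skf_eq_zero {T x : ℝ} (hT : 0 < T) (h : 2 * T < |x|) : skf T x = 0 := by
  unfold skf; rw [trap_eq_zero hT h.le]; simp

theorem skf'_eq_zero {T x : ℝ} (hT : 0 < T) (h : 2 * T < |x|) : skf' T x = 0 := by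
  unfold skf'; rw [trap_eq_zero hT h.le, trap'_eq_zero_of_ge hT h]; simp

/-- `(1 - trap) / sgf` -/
noncomputable def vf (T x : ℝ) : ℂ := (1 - trap T x) / sgf x
noncomputable def vf' (T x : ℝ) : ℂ :=
  (-(trap' T x) * sgf x - (1 - trap T x) * sgf' x) / sgf x ^ 2

theorem hasDerivWithinAt_vf {T : ℝ} (hT : 0 < T) {x : ℝ} (hx : |x| ≤ Real.pi) :
    HasDerivWithinAt (vf T) (vf' T x) (Ioi x) x := by
  by_cases hin : -T ≤ x ∧ x < T
  · have h1 : trap T x = 1 := trap_eq_one hT (abs_le.2 ⟨hin.1, hin.2.le⟩)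
    have h2 : trap' T x = 0 := by
      unfold trap'
      rw [if_neg (by linarith [hin.1]), if_neg (by linarith [hin.1]), if_pos hin.2]
    have h3 : vf' T x = 0 := by unfold vf'; rw [h1, h2]; simp
    rw [h3]
    refine (hasDerivWithinAt_const x (Ioi x) (0:ℂ)).congr_of_eventuallyEq ?_ ?_
    · filter_upwards [self_mem_nhdsWithin,
        mem_nhdsWithin_of_mem_nhds (isOpen_Iio.mem_nhds (show x ∈ Iio T from hin.2))] with y hy1 hy2
      simp only [mem_Ioi, mem_Iio] at hy1 hy2
      unfold vf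
      rw [trap_eq_one hT (abs_le.2 ⟨by linarith [hin.1], by linarith⟩)]
      simp
    · unfold vf; rw [h1]; simp
  · have hx0 : x ≠ 0 := by
      rintro rfl
      exact hin ⟨by linarith, hT⟩
    have hs := sgf_ne_zero hx0 hx
    have hn : HasDerivWithinAt (fun y : ℝ => (1 - trap T y : ℂ)) (-(trap' T x : ℂ)) (Ioi x) x := by
      have := (hasDerivWithinAt_trap hT x).ofReal_comp.const_sub (1:ℂ)
      exact this
    exact hn.div (hasDerivAt_sgf hx).hasDerivWithinAt hs

theorem norm_vf_le {T : ℝ} (hT : 0 < T) {x : ℝ} (hx : |x| ≤ Real.pi) :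
    ‖vf T x‖ ≤ Real.pi ^ 2 / (4 * T ^ 2) := by
  unfold vf
  rcases le_or_gt |x| T with h | h
  · rw [trap_eq_one hT h]; simp; positivity
  · have h1 := norm_sgf_ge hx
    have hpos : 0 < 4 / Real.pi ^ 2 * T ^ 2 := by positivity
    have h2 : 4 / Real.pi ^ 2 * T ^ 2 ≤ ‖sgf x‖ := by
      refine le_trans ?_ h1
      rw [← sq_abs x]
      gcongr
    have h3 : ‖(1 - trap T x : ℂ)‖ ≤ 1 := by
      rw [show (1 - trap T x : ℂ) = ((1 - trap T x : ℝ) : ℂ) by push_cast; ring, Complex.norm_real,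
        Real.norm_of_nonneg (by linarith [trap_le_one T x])]
      linarith [trap_nonneg T x]
    rw [norm_div]
    calc ‖(1 - trap T x : ℂ)‖ / ‖sgf x‖ ≤ 1 / (4 / Real.pi ^ 2 * T ^ 2) := by gcongr
      _ = Real.pi ^ 2 / (4 * T ^ 2) := by field_simp

theorem norm_vf'_le {T : ℝ} (hT : 0 < T) {x : ℝ} (hx : |x| ≤ Real.pi) :
    ‖vf' T x‖ ≤ 1 / T * (Real.pi ^ 2 / (4 * T ^ 2)) + 6 * (Real.pi ^ 2 / (4 * T ^ 2)) ^ 2 := by
  unfold vf'
  by_cases hin : -T ≤ x ∧ x < T
  · have h1 : trap T x = 1 := trap_eq_one hT (abs_le.2 ⟨hin.1, hin.2.le⟩)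
    have h2 : trap' T x = 0 := by
      unfold trap'
      rw [if_neg (by linarith [hin.1]), if_neg (by linarith [hin.1]), if_pos hin.2]
    rw [h1, h2]
    simp only [Complex.ofReal_zero, neg_zero, zero_mul, Complex.ofReal_one, sub_self, zero_div,
      norm_zero]
    positivity
  · have hxT : T ≤ |x| := by
      by_contra h
      rw [not_le] at h
      have := abs_lt.1 h
      exact hin ⟨this.1.le, this.2⟩
    have hx0 : x ≠ 0 := by
      rintro rfl
      exact hin ⟨by linarith, hT⟩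
    have hs := sgf_ne_zero hx0 hx
    have hsn : 0 < ‖sgf x‖ := norm_pos_iff.2 hs
    have h1 := norm_sgf_ge hx
    have h2 : 4 / Real.pi ^ 2 * T ^ 2 ≤ ‖sgf x‖ := by
      refine le_trans ?_ h1
      rw [← sq_abs x]
      gcongr
    have hinv : 1 / ‖sgf x‖ ≤ Real.pi ^ 2 / (4 * T ^ 2) := by
      calc 1 / ‖sgf x‖ ≤ 1 / (4 / Real.pi ^ 2 * T ^ 2) := by gcongr
        _ = Real.pi ^ 2 / (4 * T ^ 2) := by field_simp
    have h3 : ‖(1 - trap T x : ℂ)‖ ≤ 1 := by
      rw [show (1 - trap T x : ℂ) = ((1 - trap T x : ℝ) : ℂ) by push_cast; ring, Complex.norm_real,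
        Real.norm_of_nonneg (by linarith [trap_le_one T x])]
      linarith [trap_nonneg T x]
    have h4 : ‖(trap' T x : ℂ)‖ ≤ 1 / T := by
      rw [Complex.norm_real, Real.norm_eq_abs]; exact abs_trap'_le hT x
    have h5 := norm_sgf'_le x
    have heq : (-(trap' T x : ℂ) * sgf x - (1 - trap T x) * sgf' x) / sgf x ^ 2
        = -(trap' T x : ℂ) * (1 / sgf x) - (1 - trap T x) * sgf' x * (1 / sgf x) ^ 2 := by
      field_simp
    rw [heq]
    refine (norm_sub_le _ _).trans ?_
    have hinv' : ‖1 / sgf x‖ ≤ Real.pi ^ 2 / (4 * T ^ 2) := by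
      rw [norm_div, norm_one]; exact hinv
    rw [norm_mul, norm_neg, norm_mul, norm_mul, norm_pow]
    refine add_le_add ?_ ?_
    · gcongr
    · calc ‖(1 - trap T x : ℂ)‖ * ‖sgf' x‖ * ‖1 / sgf x‖ ^ 2
          ≤ 1 * 6 * (Real.pi ^ 2 / (4 * T ^ 2)) ^ 2 := by gcongr
        _ = _ := by ring

theorem vf_mul_sgf {T : ℝ} (hT : 0 < T) {x : ℝ} (hx : |x| ≤ Real.pi) :
    vf T x * sgf x = 1 - trap T x := by
  unfold vf
  rcases eq_or_ne x 0 with rfl | hx0
  · rw [trap_eq_one hT (by simpa using hT.le)]; simp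
  · rw [div_mul_cancel₀ _ (sgf_ne_zero hx0 hx)]

theorem vf_neg_pi (T : ℝ) : vf T (-Real.pi) = vf T Real.pi := by
  unfold vf; rw [trap_neg, sgf_neg_pi]

theorem skf_neg_pi (T : ℝ) : skf T (-Real.pi) = skf T Real.pi := by
  unfold skf; rw [trap_neg, sgf_neg_pi]

theorem continuous_sgf : Continuous sgf := by
  rw [continuous_iff_continuousAt]
  intro x
  by_cases hz : Complex.exp (x * Complex.I) = 1
  · have h0 : sgf x = 0 := by simp [sgf, hz]
    rw [ContinuousAt, h0]
    refine squeeze_zero_norm (a := fun y : ℝ => ‖1 - Complex.exp (y * Complex.I)‖ ^ 2)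
      (fun y => (norm_sgf y).le) ?_
    have : Continuous fun y : ℝ => ‖1 - Complex.exp (y * Complex.I)‖ ^ 2 := by fun_prop
    have h := this.tendsto x
    simpa [hz] using h
  · unfold sgf
    have h1 : ContinuousAt (fun y : ℝ => Complex.exp (y * Complex.I)) x := by fun_prop
    have h2 : ContinuousAt Sf (Complex.exp (x * Complex.I)) := (differentiableAt_Sf hz).continuousAt
    exact (h2.comp_of_eq h1 rfl).mul (by fun_prop)

theorem continuousOn_vf {T : ℝ} (hT : 0 < T) : ContinuousOn (vf T) (Icc (-Real.pi) Real.pi) := by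
  intro x hx
  have hx' : |x| ≤ Real.pi := abs_le.2 hx
  rcases lt_or_ge |x| T with h | h
  · have : vf T =ᶠ[𝓝 x] fun _ => 0 := by
      have ho : IsOpen {y : ℝ | |y| < T} := isOpen_lt continuous_abs continuous_const
      filter_upwards [ho.mem_nhds h] with y hy
      unfold vf
      rw [trap_eq_one hT (le_of_lt hy)]
      simp
    exact (continuousAt_const.congr this.symm).continuousWithinAt
  · have hx0 : x ≠ 0 := by
      rintro rfl
      simp at h
      linarith
    unfold vf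
    refine ContinuousAt.continuousWithinAt ?_
    refine ContinuousAt.div ?_ continuous_sgf.continuousAt (sgf_ne_zero hx0 hx')
    have := continuous_trap T
    fun_prop

theorem continuousOn_skf (T : ℝ) : ContinuousOn (skf T) (Icc (-Real.pi) Real.pi) := by
  unfold skf
  have := continuous_trap T
  exact (continuous_sgf.mul (by fun_prop)).continuousOn

end Pool.Agent.H20.Vin
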