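import Mathlib
import Pool.Agent.H36.Vin.Sob
import Pool.Agent.H47.Vin.Comb
import Pool.Agent.H20.Vin.Sig1
import Pool.Agent.H20.Vin.D0

/-!
# The elements `sig` (boundary values of `S(z)(1-z)^2`) and `vq q` (`(1 - kap q)/sig`) of `W`
-/

namespace Pool.Agent.H47.Vin

open Pool.Agent.H20.Vin
open scoped BigOperators Topology
open Metric Filter Set

/-- Sobolev type estimate, local form -/
theorem exists_sob' {f f' : ℝ → ℂ} {A B T : ℝ} (hT : 0 < T) (hA0 : 0 < A) (hAB : A ≤ B)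
    (hf : ContinuousOn f (Icc (-Real.pi) Real.pi))
    (hper : f (-Real.pi) = f Real.pi)
    (hd : ∀ x ∈ Ioo (-Real.pi) Real.pi, HasDerivWithinAt f (f' x) (Ioi x) x)
    (hA : ∀ x, |x| ≤ Real.pi → ‖f x‖ ≤ A) (hz : ∀ x, |x| ≤ Real.pi → T < |x| → f x = 0)
    (hB : ∀ x, |x| ≤ Real.pi → ‖f' x‖ ≤ B) (hz' : ∀ x, |x| ≤ Real.pi → T < |x| → f' x = 0) :
    ∃ a : W, (∀ t, |t| ≤ Real.pi → ev t a = f t) ∧ ‖a‖ ≤ 3 * Real.sqrt (A * B * T) ∧
      ∀ Q : ℕ, 0 < Q → ‖res {n : ℤ | (Q : ℤ) < |n|} a‖ ≤ B * Real.sqrt (T / Q) := by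
  have hpi := Real.pi_pos
  have hB0 : 0 ≤ B := hA0.le.trans hAB
  let F : ℝ → ℂ := fun x => if |x| ≤ Real.pi then f x else 0
  let F' : ℝ → ℂ := fun x => if |x| ≤ Real.pi then f' x else 0
  have hFf : ∀ x, |x| ≤ Real.pi → F x = f x := fun x hx => if_pos hx
  have hFf' : ∀ x, |x| ≤ Real.pi → F' x = f' x := fun x hx => if_pos hx
  obtain ⟨a, h1, h2, h3⟩ := exists_sob (f := F) (f' := F') hT hA0 hAB
    (hf.congr fun x hx => hFf x (abs_le.2 hx))
    (by rw [hFf _ (by rw [abs_neg, abs_of_pos hpi]), hFf _ (by rw [abs_of_pos hpi]), hper])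
    (fun x hx => by
      have hx' : |x| ≤ Real.pi := (abs_lt.2 hx).le
      rw [hFf' x hx']
      refine (hd x hx).congr_of_eventuallyEq ?_ (hFf x hx')
      filter_upwards [self_mem_nhdsWithin,
        mem_nhdsWithin_of_mem_nhds (isOpen_Iio.mem_nhds (show x ∈ Iio Real.pi from hx.2))] with y hy1 hy2
      simp only [mem_Ioi, mem_Iio] at hy1 hy2
      exact hFf y (abs_le.2 ⟨by linarith [hx.1], hy2.le⟩))
    (fun x => by
      by_cases h : |x| ≤ Real.pi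
      · rw [hFf x h]; exact hA x h
      · have : F x = 0 := if_neg h
        rw [this, norm_zero]; exact hA0.le)
    (fun x hx => by
      by_cases h : |x| ≤ Real.pi
      · rw [hFf x h]; exact hz x h hx
      · exact if_neg h)
    (fun x => by
      by_cases h : |x| ≤ Real.pi
      · rw [hFf' x h]; exact hB x h
      · have : F' x = 0 := if_neg h
        rw [this, norm_zero]; exact hB0)
    (fun x hx => by
      by_cases h : |x| ≤ Real.pi
      · rw [hFf' x h]; exact hz' x h hx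
      · exact if_neg h)
  exact ⟨a, fun t ht => by rw [h1 t ht, hFf t ht], h2, h3⟩

theorem exists_sig : ∃ a : W, (∀ t, |t| ≤ Real.pi → ev t a = sgf t) ∧
    ‖a‖ ≤ 3 * Real.sqrt (4 * 6 * Real.pi) := by
  have hpi := Real.pi_pos
  obtain ⟨a, h1, h2, -⟩ := exists_sob' (f := sgf) (f' := sgf') (A := 4) (B := 6) (T := Real.pi)
    hpi (by norm_num) (by norm_num) continuous_sgf.continuousOn sgf_neg_pi
    (fun x hx => (hasDerivAt_sgf (abs_lt.2 hx).le).hasDerivWithinAt)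
    (fun x _ => norm_sgf_le_four x) (fun x hx h => absurd hx (not_le.2 h))
    (fun x _ => norm_sgf'_le x) (fun x hx h => absurd hx (not_le.2 h))
  exact ⟨a, h1, h2⟩

/-- boundary values of `S(z)(1-z)^2` -/
noncomputable def sig : W := Classical.choose exists_sig

theorem ev_sig_pi {t : ℝ} (ht : |t| ≤ Real.pi) : ev t sig = sgf t :=
  (Classical.choose_spec exists_sig).1 t ht

theorem norm_sig_le : ‖sig‖ ≤ 27 := by
  refine (Classical.choose_spec exists_sig).2.trans ?_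
  have h : Real.sqrt (4 * 6 * Real.pi) ≤ 9 := by
    rw [show (9:ℝ) = Real.sqrt (9 ^ 2) by rw [Real.sqrt_sq (by norm_num)]]
    apply Real.sqrt_le_sqrt
    have := Real.pi_lt_d2
    nlinarith
  linarith

theorem ev_sig (t : ℝ) : ev t sig
    = Sf (Complex.exp (t * Complex.I)) * (1 - Complex.exp (t * Complex.I)) ^ 2 := by
  obtain ⟨n, hn⟩ := exists_red t
  rw [← ev_periodic t n, ev_sig_pi hn, sgf]
  have : Complex.exp (((t - 2 * Real.pi * n : ℝ) : ℂ) * Complex.I) = Complex.exp (t * Complex.I) := by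
    have h := Complex.exp_periodic.sub_int_mul_eq (x := (t * Complex.I)) n
    rw [← h]
    congr 1
    push_cast
    ring
  rw [this]

theorem norm_ev_sig (t : ℝ) : ‖ev t sig‖ = ‖1 - Complex.exp (t * Complex.I)‖ ^ 2 := by
  rw [ev_sig, norm_mul, norm_pow, norm_Sf_eq_one (norm_exp_I t), one_mul]

theorem diffContOnCl_sig : DiffContOnCl ℂ (fun z => Sf z * (1 - z) ^ 2) (ball 0 1) := by
  refine ⟨?_, ?_⟩
  · intro z hz
    have hz1 : z ≠ 1 := by
      rintro rfl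
      simp at hz
    exact ((differentiableAt_Sf hz1).mul (by fun_prop)).differentiableWithinAt
  · rw [closure_ball (0:ℂ) one_ne_zero]
    intro z hz
    rcases eq_or_ne z 1 with rfl | hz1
    · show Tendsto _ _ _
      simp only [sub_self]
      rw [zero_pow two_ne_zero, mul_zero]
      refine squeeze_zero_norm' (a := fun w : ℂ => ‖1 - w‖ ^ 2) ?_ ?_
      · filter_upwards [self_mem_nhdsWithin] with w hw
        have hw1 : ‖w‖ ≤ 1 := by simpa using hw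
        rw [norm_mul, norm_pow]
        exact mul_le_of_le_one_left (by positivity) (norm_Sf_le_one hw1)
      · have : Continuous fun w : ℂ => ‖1 - w‖ ^ 2 := by fun_prop
        have h := this.tendsto (1:ℂ)
        simp only [sub_self, norm_zero] at h
        rw [zero_pow two_ne_zero] at h
        exact h.mono_left nhdsWithin_le_nhds
    · exact ((differentiableAt_Sf hz1).continuousAt.mul (by fun_prop)).continuousWithinAt

theorem ge_sig : Ge 0 sig := ge_zero_of_disc diffContOnCl_sig ev_sig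

theorem pw_sig {z : ℂ} (hz : ‖z‖ ≤ 1) : pw sig z = Sf z * (1 - z) ^ 2 :=
  (eq_pw_of_disc diffContOnCl_sig ev_sig hz).symm

theorem Tp_half (p : ℕ) : Tp (p + 1) = Tp p / 2 := by
  rw [Tp_add]; norm_num

theorem Tp_succ_eq (p : ℕ) : Tp (p + 1) = Real.pi / 2 ^ p := by
  unfold Tp
  rw [pow_succ]
  field_simp

theorem trap_Tp (p : ℕ) (t : ℝ) : trap (Tp (p + 1)) t = max 0 (min 1 (2 - 2 * |t| / Tp p)) := by
  unfold trap
  have := Tp_pos p
  rw [Tp_half]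
  congr 3
  field_simp

/-- `sig` is small near `t = 0` -/
theorem norm_sig_mul_le {p : ℕ} {κ : W}
    (hκ : ∀ t, |t| ≤ Real.pi → ev t κ = ((trap (Tp (p + 1)) t : ℝ) : ℂ)) :
    ‖sig * κ‖ ≤ 400 / 2 ^ p := by
  have hpi := Real.pi_pos
  have hpi3 := Real.pi_lt_d2
  set T := Tp (p + 1) with hT
  have hT0 : 0 < T := Tp_pos _
  have hTle : T ≤ Real.pi := Tp_le_pi (by omega)
  obtain ⟨a, h1, h2, -⟩ := exists_sob' (f := skf T) (f' := skf' T) (A := 4 * T ^ 2) (B := 6 + 12 * T)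
    (T := 2 * T) (by positivity) (by positivity) (by nlinarith)
    (continuousOn_skf T) (skf_neg_pi T)
    (fun x hx => hasDerivWithinAt_skf hT0 (abs_lt.2 hx).le)
    (fun x _ => norm_skf_le hT0 x) (fun x _ h => skf_eq_zero hT0 h)
    (fun x _ => (norm_skf'_le hT0 x).trans (by linarith)) (fun x _ h => skf'_eq_zero hT0 h)
  have heq : sig * κ = a := ext_pi fun t ht => by
    rw [ev_mul', ev_sig_pi ht, hκ t ht, h1 t ht, skf]
  rw [heq]
  refine h2.trans ?_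
  have hTe : T = Real.pi / 2 ^ p := Tp_succ_eq p
  have h2p : (1:ℝ) ≤ 2 ^ p := one_le_pow₀ (by norm_num)
  have key : 4 * T ^ 2 * (6 + 12 * T) * (2 * T) ≤ (110 / 2 ^ p) ^ 2 := by
    have h3 : T ^ 3 ≤ 31.1 * (1 / 2 ^ p) ^ 2 := by
      rw [hTe, div_pow]
      have : Real.pi ^ 3 ≤ 31.1 := by
        have : Real.pi ^ 3 ≤ 3.1416 ^ 3 := pow_le_pow_left₀ hpi.le Real.pi_lt_d4.le 3
        norm_num at this ⊢
        linarith
      rw [div_le_iff₀ (by positivity)]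
      calc Real.pi ^ 3 ≤ 31.1 * 1 := by linarith
        _ ≤ 31.1 * 2 ^ p := by gcongr
        _ = 31.1 * (1 / 2 ^ p) ^ 2 * (2 ^ p) ^ 3 := by field_simp
    have h4 : 6 + 12 * T ≤ 44 := by nlinarith
    calc 4 * T ^ 2 * (6 + 12 * T) * (2 * T) = 8 * T ^ 3 * (6 + 12 * T) := by ring
      _ ≤ 8 * (31.1 * (1 / 2 ^ p) ^ 2) * (6 + 12 * T) := by
          gcongr
      _ ≤ 8 * (31.1 * (1 / 2 ^ p) ^ 2) * 44 := by gcongr
      _ = (8 * 31.1 * 44) * (1 / 2 ^ p) ^ 2 := by ring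
      _ ≤ 110 ^ 2 * (1 / 2 ^ p) ^ 2 := by gcongr; norm_num
      _ = _ := by ring
  have h5 : Real.sqrt (4 * T ^ 2 * (6 + 12 * T) * (2 * T)) ≤ 110 / 2 ^ p :=
    (Real.sqrt_le_sqrt key).trans_eq (Real.sqrt_sq (by positivity))
  calc 3 * Real.sqrt (4 * T ^ 2 * (6 + 12 * T) * (2 * T)) ≤ 3 * (110 / 2 ^ p) := by gcongr
    _ ≤ 400 / 2 ^ p := by
      rw [mul_div_assoc', div_le_div_iff_of_pos_right (by positivity)]; norm_num

theorem exists_vq (q : ℕ) : ∃ a : W, (∀ t, |t| ≤ Real.pi → ev t a = vf (Tp (q + 1)) t) ∧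
    ‖a‖ ≤ 2 * 8 ^ q ∧ ∀ Q : ℕ, 0 < Q → ‖res {n : ℤ | (Q : ℤ) < |n|} a‖ ≤ 16 ^ q / Real.sqrt Q := by
  have hpi := Real.pi_pos
  have hpi3 := Real.pi_gt_three
  have hpi4 := Real.pi_lt_d2
  set T := Tp (q + 1) with hT
  have hT0 : 0 < T := Tp_pos _
  have hTe : T = Real.pi / 2 ^ q := Tp_succ_eq q
  have h2q : (1:ℝ) ≤ 2 ^ q := one_le_pow₀ (by norm_num)
  have e4 : (4:ℝ) ^ q = (2 ^ q) ^ 2 := by rw [← pow_mul, mul_comm, pow_mul]; norm_num
  have e8 : (8:ℝ) ^ q = (2 ^ q) ^ 3 := by rw [← pow_mul, mul_comm, pow_mul]; norm_num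
  have e16 : (16:ℝ) ^ q = (2 ^ q) ^ 4 := by rw [← pow_mul, mul_comm, pow_mul]; norm_num
  have hA : Real.pi ^ 2 / (4 * T ^ 2) = 4 ^ q / 4 := by
    rw [hTe, e4]; field_simp
  have hB : 1 / T * (Real.pi ^ 2 / (4 * T ^ 2)) + 6 * (Real.pi ^ 2 / (4 * T ^ 2)) ^ 2
      ≤ 16 ^ q / 2 := by
    rw [hA, hTe, e4, e16]
    have h1 : 1 / (Real.pi / 2 ^ q) * ((2 ^ q) ^ 2 / 4) ≤ (2 ^ q) ^ 4 / 12 := by
      rw [one_div_div, div_mul_div_comm, div_le_div_iff₀ (by positivity) (by norm_num)]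
      have h3 : (2:ℝ) ^ q * (2 ^ q) ^ 2 ≤ (2 ^ q) ^ 4 := by
        calc (2:ℝ) ^ q * (2 ^ q) ^ 2 = (2 ^ q) ^ 3 := by ring
          _ ≤ (2 ^ q) ^ 4 := pow_le_pow_right₀ h2q (by norm_num)
      have h4 : (0:ℝ) ≤ (2 ^ q) ^ 4 := by positivity
      nlinarith
    have h2 : 6 * ((((2:ℝ) ^ q) ^ 2 / 4) ^ 2) = 3 / 8 * (2 ^ q) ^ 4 := by ring
    rw [h2]
    have h4 : (0:ℝ) ≤ (2 ^ q) ^ 4 := by positivity
    linarith
  obtain ⟨a, h1, h2, h3⟩ := exists_sob' (f := vf T) (f' := vf' T) (A := 4 ^ q / 4) (B := 16 ^ q / 2)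
    (T := Real.pi) hpi (by positivity) (by
      rw [e4, e16]
      have : ((2:ℝ) ^ q) ^ 2 ≤ (2 ^ q) ^ 4 := pow_le_pow_right₀ h2q (by norm_num)
      linarith [(by positivity : (0:ℝ) ≤ (2 ^ q) ^ 4)])
    (continuousOn_vf hT0) (vf_neg_pi T)
    (fun x hx => hasDerivWithinAt_vf hT0 (abs_lt.2 hx).le)
    (fun x hx => (norm_vf_le hT0 hx).trans_eq hA) (fun x hx h => absurd hx (not_le.2 h))
    (fun x hx => (norm_vf'_le hT0 hx).trans hB) (fun x hx h => absurd hx (not_le.2 h))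
  refine ⟨a, h1, h2.trans ?_, fun Q hQ => (h3 Q hQ).trans ?_⟩
  · have h5 : 4 ^ q / 4 * (16 ^ q / 2) * Real.pi ≤ (2 / 3 * 8 ^ q) ^ 2 := by
      rw [e4, e8, e16]
      calc ((2:ℝ) ^ q) ^ 2 / 4 * ((2 ^ q) ^ 4 / 2) * Real.pi = (Real.pi / 8) * (2 ^ q) ^ 6 := by ring
        _ ≤ (4 / 9) * (2 ^ q) ^ 6 := mul_le_mul_of_nonneg_right (by linarith) (by positivity)
        _ = _ := by ring
    have h6 := (Real.sqrt_le_sqrt h5).trans_eq (Real.sqrt_sq (by positivity))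
    linarith
  · rw [Real.sqrt_div hpi.le, mul_div_assoc', div_le_div_iff_of_pos_right (by positivity)]
    have h5 : Real.sqrt Real.pi ≤ 2 := by
      rw [show (2:ℝ) = Real.sqrt (2 ^ 2) by rw [Real.sqrt_sq (by norm_num)]]
      apply Real.sqrt_le_sqrt
      norm_num
      linarith
    have h6 : (0:ℝ) ≤ 16 ^ q := by positivity
    nlinarith

/-- the symbol `(1 - kap q) / sig` -/
noncomputable def vq (q : ℕ) : W := Classical.choose (exists_vq q)

theorem ev_vq_pi (q : ℕ) {t : ℝ} (ht : |t| ≤ Real.pi) : ev t (vq q) = vf (Tp (q + 1)) t :=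
  (Classical.choose_spec (exists_vq q)).1 t ht

theorem norm_vq_le (q : ℕ) : ‖vq q‖ ≤ 2 * 8 ^ q := (Classical.choose_spec (exists_vq q)).2.1

theorem norm_vq_le' (q : ℕ) : ‖vq q‖ ≤ 2 * 16 ^ q := by
  refine (norm_vq_le q).trans ?_
  gcongr
  norm_num

theorem tail_vq (q : ℕ) {Q : ℕ} (hQ : 0 < Q) :
    ‖res {n : ℤ | (Q : ℤ) < |n|} (vq q)‖ ≤ 16 ^ q / Real.sqrt Q :=
  (Classical.choose_spec (exists_vq q)).2.2 Q hQ

theorem vq_mul_sig {q : ℕ} {κ : W}
    (hκ : ∀ t, |t| ≤ Real.pi → ev t κ = ((trap (Tp (q + 1)) t : ℝ) : ℂ)) :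
    vq q * sig = 1 - κ := ext_pi fun t ht => by
  rw [ev_mul', ev_vq_pi q ht, ev_sig_pi ht, vf_mul_sgf (Tp_pos _) ht, ev_sub, ev_one', hκ t ht]

end Pool.Agent.H47.Vin
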