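import Mathlib
import Pool.Agent.H20.Vin.Sig

/-!
# The cut symbol `phi p m`, pointwise values
-/

namespace Pool.Agent.H47.Vin

open Pool.Agent.H20.Vin
open scoped BigOperators Topology
open Metric Filter Set MeasureTheory

/-- the function `(1 - e^{iMx}) 1_{|x| < T}` -/
noncomputable def phf (T : ℝ) (M : ℕ) (x : ℝ) : ℂ :=
  if T ≤ |x| then 0 else 1 - Complex.exp (M * (x * Complex.I))

/-- its right derivative -/
noncomputable def phf' (T : ℝ) (M : ℕ) (x : ℝ) : ℂ :=
  if x < -T then 0 else if x < T then -(M * Complex.I * Complex.exp (M * (x * Complex.I))) else 0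

theorem norm_exp_nat (M : ℕ) (x : ℝ) : ‖Complex.exp (M * (x * Complex.I))‖ = 1 := by
  rw [show (M : ℂ) * (x * Complex.I) = ((M * x : ℝ) : ℂ) * Complex.I by push_cast; ring]
  exact Complex.norm_exp_ofReal_mul_I _

section phf

variable {T : ℝ} {M : ℕ}

theorem exp_abs_eq_one (hM : Complex.exp (M * (T * Complex.I)) = 1) {x : ℝ} (hx : T = |x|) :
    Complex.exp (M * (x * Complex.I)) = 1 := by
  rcases abs_choice x with h | h
  · rw [h] at hx; rw [← hx]; exact hM
  · rw [h] at hx
    have : x = -T := by rw [hx]; ring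
    rw [this, show (M : ℂ) * (((-T : ℝ) : ℂ) * Complex.I) = -(M * (T * Complex.I)) by push_cast; ring,
      Complex.exp_neg, hM, inv_one]

theorem continuous_phf (hM : Complex.exp (M * (T * Complex.I)) = 1) : Continuous (phf T M) := by
  unfold phf
  refine Continuous.if_le continuous_const (by fun_prop) continuous_const continuous_abs ?_
  intro x hx
  rw [exp_abs_eq_one hM hx, sub_self]

theorem hasDerivWithinAt_phf (hT : 0 < T) (hM : Complex.exp (M * (T * Complex.I)) = 1) (x : ℝ) :
    HasDerivWithinAt (phf T M) (phf' T M x) (Ioi x) x := by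
  unfold phf'
  split_ifs with h1 h2
  · refine (hasDerivWithinAt_const x (Ioi x) (0:ℂ)).congr_of_eventuallyEq ?_ ?_
    · filter_upwards [mem_nhdsWithin_of_mem_nhds (isOpen_Iio.mem_nhds (show x ∈ Iio (-T) from h1))]
        with y hy
      simp only [mem_Iio] at hy
      exact if_pos (by rw [abs_of_neg (by linarith)]; linarith)
    · exact if_pos (by rw [abs_of_neg (by linarith)]; linarith)
  · have hd : HasDerivAt (fun y : ℝ => 1 - Complex.exp (M * (y * Complex.I)))
        (-(M * Complex.I * Complex.exp (M * (x * Complex.I)))) x := by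
      have h3 : HasDerivAt (fun z : ℂ => 1 - Complex.exp (M * (z * Complex.I)))
          (-(M * Complex.I * Complex.exp (M * (x * Complex.I)))) (x : ℂ) := by
        have h4 : HasDerivAt (fun z : ℂ => (M : ℂ) * (z * Complex.I)) (M * Complex.I) (x : ℂ) := by
          simpa using ((hasDerivAt_id (x:ℂ)).mul_const Complex.I).const_mul (M : ℂ)
        have := h4.cexp.const_sub 1
        refine this.congr_deriv ?_
        ring
      exact h3.comp_ofReal
    refine hd.hasDerivWithinAt.congr_of_eventuallyEq ?_ ?_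
    · filter_upwards [self_mem_nhdsWithin,
        mem_nhdsWithin_of_mem_nhds (isOpen_Iio.mem_nhds (show x ∈ Iio T from h2))] with y hy1 hy2
      simp only [mem_Ioi, mem_Iio] at hy1 hy2
      exact if_neg (by rw [not_le]; exact abs_lt.2 ⟨by linarith, hy2⟩)
    · show phf T M x = _
      unfold phf
      split_ifs with h3
      · have h4 : T = |x| := le_antisymm h3 (abs_le.2 ⟨by linarith, h2.le⟩)
        rw [exp_abs_eq_one hM h4, sub_self]
      · rfl
  · refine (hasDerivWithinAt_const x (Ioi x) (0:ℂ)).congr_of_eventuallyEq ?_ ?_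
    · filter_upwards [self_mem_nhdsWithin] with y hy
      simp only [mem_Ioi] at hy
      exact if_pos (by rw [abs_of_pos (by linarith)]; linarith)
    · exact if_pos (by rw [abs_of_pos (by linarith)]; linarith)

theorem norm_phf_le (x : ℝ) : ‖phf T M x‖ ≤ 2 := by
  unfold phf
  split_ifs
  · simp
  · refine (norm_sub_le _ _).trans ?_
    rw [norm_one, norm_exp_nat]
    norm_num

theorem norm_phf'_le (x : ℝ) : ‖phf' T M x‖ ≤ M := by
  unfold phf'
  split_ifs
  · simp
  · rw [norm_neg, norm_mul, norm_mul, Complex.norm_I, norm_exp_nat, mul_one, mul_one]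
    simp
  · simp

end phf

theorem integral_exp_neg (n : ℤ) (T : ℝ) :
    ∫ x in (-T)..T, Complex.exp (-(n * (x * Complex.I))) = 2 * Real.pi * cc T n := by
  have hpi : (Real.pi : ℂ) ≠ 0 := by exact_mod_cast Real.pi_ne_zero
  rcases eq_or_ne n 0 with rfl | hn
  · unfold cc
    rw [if_pos rfl]
    simp only [Int.cast_zero, zero_mul, neg_zero, Complex.exp_zero]
    rw [intervalIntegral.integral_const]
    rw [Complex.real_smul]
    push_cast
    field_simp
    ring
  · have hn' : (n : ℂ) ≠ 0 := by exact_mod_cast hn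
    have hc : -(n * Complex.I) ≠ 0 := neg_ne_zero.2 (mul_ne_zero hn' Complex.I_ne_zero)
    have h1 : ∀ x : ℝ, Complex.exp (-(n * (x * Complex.I))) = Complex.exp (-(n * Complex.I) * x) := by
      intro x; congr 1; ring
    simp_rw [h1]
    rw [integral_exp_mul_complex hc]
    unfold cc
    rw [if_neg hn]
    push_cast
    rw [Complex.sin]
    have hI := Complex.I_ne_zero
    rw [div_eq_iff hc]
    have h2 : Complex.exp (-(n * Complex.I) * T) = Complex.exp (-(n * T) * Complex.I) := by
      congr 1; ring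
    have h3 : Complex.exp (-(n * Complex.I) * (-T)) = Complex.exp ((n * T) * Complex.I) := by
      congr 1; ring
    rw [h2, h3]
    field_simp
    rw [Complex.I_sq]
    ring

theorem exp_M_Tp {p m : ℕ} (hpm : p ≤ m) :
    Complex.exp (((2 ^ m : ℕ) : ℂ) * (Tp p * Complex.I)) = 1 := by
  obtain ⟨d, rfl⟩ := Nat.exists_eq_add_of_le hpm
  rw [← Complex.exp_nat_mul_two_pi_mul_I (2 ^ d)]
  congr 1
  unfold Tp
  push_cast
  rw [pow_add]
  field_simp

theorem cf_phf {p m : ℕ} (hp : 1 ≤ p) (hpm : p ≤ m) (n : ℤ) :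
    cf (phf (Tp p) (2 ^ m)) n = ((cc (Tp p) n - cc (Tp p) (n - 2 ^ m) : ℝ) : ℂ) := by
  have hpi := Real.pi_pos
  have hpi' : (Real.pi : ℂ) ≠ 0 := by exact_mod_cast Real.pi_ne_zero
  set T := Tp p with hTdef
  have hT0 : 0 < T := Tp_pos p
  have hTpi : T ≤ Real.pi := Tp_le_pi hp
  have hM : Complex.exp (((2 ^ m : ℕ) : ℂ) * (T * Complex.I)) = 1 := exp_M_Tp hpm
  have hc := continuous_phf hM
  have hcont : Continuous fun x : ℝ => Complex.exp (-(n * (x * Complex.I))) * phf T (2 ^ m) x := by
    fun_prop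
  have hii : ∀ a b : ℝ, IntervalIntegrable
      (fun x : ℝ => Complex.exp (-(n * (x * Complex.I))) * phf T (2 ^ m) x) volume a b :=
    fun a b => hcont.intervalIntegrable a b
  rw [cf_eq, ← intervalIntegral.integral_add_adjacent_intervals (hii _ (-T)) (hii (-T) _),
    ← intervalIntegral.integral_add_adjacent_intervals (hii (-T) T) (hii T _)]
  have e1 : ∫ x in (-Real.pi)..(-T), Complex.exp (-(n * (x * Complex.I))) * phf T (2 ^ m) x = 0 := by
    rw [← intervalIntegral.integral_zero (a := -Real.pi) (b := -T) (E := ℂ) (μ := volume)]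
    refine intervalIntegral.integral_congr fun x hx => ?_
    rw [uIcc_of_le (by linarith)] at hx
    have : phf T (2 ^ m) x = 0 := if_pos (by rw [abs_of_neg (by linarith [hx.2])]; linarith [hx.2])
    simp only [this, mul_zero]
  have e3 : ∫ x in T..Real.pi, Complex.exp (-(n * (x * Complex.I))) * phf T (2 ^ m) x = 0 := by
    rw [← intervalIntegral.integral_zero (a := T) (b := Real.pi) (E := ℂ) (μ := volume)]
    refine intervalIntegral.integral_congr fun x hx => ?_
    rw [uIcc_of_le (by linarith)] at hx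
    have : phf T (2 ^ m) x = 0 := if_pos (by rw [abs_of_pos (by linarith [hx.1])]; linarith [hx.1])
    simp only [this, mul_zero]
  have e2 : ∫ x in (-T)..T, Complex.exp (-(n * (x * Complex.I))) * phf T (2 ^ m) x
      = 2 * Real.pi * cc T n - 2 * Real.pi * cc T (n - 2 ^ m) := by
    rw [← integral_exp_neg, ← integral_exp_neg, ← intervalIntegral.integral_sub]
    · refine intervalIntegral.integral_congr fun x hx => ?_
      rw [uIcc_of_le (by linarith)] at hx
      have h1 : phf T (2 ^ m) x = 1 - Complex.exp (((2 ^ m : ℕ) : ℂ) * (x * Complex.I)) := by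
        unfold phf
        split_ifs with h3
        · have h4 : T = |x| := le_antisymm h3 (abs_le.2 hx)
          rw [exp_abs_eq_one hM h4, sub_self]
        · rfl
      simp only [h1]
      rw [mul_sub, mul_one, ← Complex.exp_add]
      congr 2
      push_cast
      ring
    · exact (by fun_prop : Continuous fun x : ℝ => Complex.exp (-(n * (x * Complex.I)))).intervalIntegrable _ _
    · exact (by fun_prop : Continuous fun x : ℝ =>
        Complex.exp (-(((n - 2 ^ m : ℤ) : ℂ) * (x * Complex.I)))).intervalIntegrable _ _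
  rw [e1, e2, e3]
  push_cast
  field_simp
  ring

theorem ev_phi {p m : ℕ} (hp : 1 ≤ p) (hpm : p ≤ m) {t : ℝ} (ht : |t| ≤ Real.pi) :
    ev t (phi p m) = phf (Tp p) (2 ^ m) t := by
  have hpi := Real.pi_pos
  have hT0 : 0 < Tp p := Tp_pos p
  have hM : Complex.exp (((2 ^ m : ℕ) : ℂ) * (Tp p * Complex.I)) = 1 := exp_M_Tp hpm
  have hc := continuous_phf hM
  have hs : Summable (fun n => ‖cf (phf (Tp p) (2 ^ m)) n‖) :=
    (summable_phi hpm).congr fun n => by rw [cf_phf hp hpm]
  have hper : phf (Tp p) (2 ^ m) (-Real.pi) = phf (Tp p) (2 ^ m) Real.pi := by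
    unfold phf
    rw [if_pos (by rw [abs_neg, abs_of_pos hpi]; exact Tp_le_pi hp),
      if_pos (by rw [abs_of_pos hpi]; exact Tp_le_pi hp)]
  rw [← synth hc.continuousOn hper hs ht]
  congr 1
  refine ext_co fun n => ?_
  rw [co_phi hpm, co_mk, cf_phf hp hpm]

/-- the cut symbol, pointwise -/
theorem ev_phi_in {p m : ℕ} (hp : 1 ≤ p) (hpm : p ≤ m) {t : ℝ} (ht : |t| < Tp p) :
    ev t (phi p m) = 1 - ev t (mono ((2 ^ m : ℕ) : ℤ)) := by
  rw [ev_phi hp hpm (ht.le.trans (Tp_le_pi hp)), ev_mono]
  unfold phf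
  rw [if_neg (not_le.2 ht)]
  norm_cast

theorem ev_phi_out {p m : ℕ} (hp : 1 ≤ p) (hpm : p ≤ m) {t : ℝ} (ht : Tp p ≤ |t|)
    (ht' : |t| ≤ Real.pi) : ev t (phi p m) = 0 := by
  rw [ev_phi hp hpm ht']
  unfold phf
  rw [if_pos ht]

end Pool.Agent.H47.Vin
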