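import Mathlib
import Pool.Agent.H47.Vin.W

/-!
# Parseval and the weighted locality lemma in the Wiener algebra
-/

namespace Pool.Agent.H20.Vin

open Pool.Agent.H47.Vin
open scoped BigOperators

/-- the square of the `l^2` norm -/
noncomputable def sq (f : W) : ℝ := ∑' n, ‖co f n‖ ^ 2

theorem summable_sq (f : W) : Summable fun n => ‖co f n‖ ^ 2 := by
  refine Summable.of_nonneg_of_le (fun n => by positivity) (fun n => ?_) ((summable_co f).mul_left ‖f‖)
  rw [pow_two]
  exact mul_le_mul_of_nonneg_right (norm_co_le f n) (norm_nonneg _)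

theorem sq_nonneg' (f : W) : 0 ≤ sq f := tsum_nonneg fun n => by positivity

theorem co_mul_adj_zero (f g : W) :
    co (f * adj g) 0 = ∑' n, co f n * starRingEnd ℂ (co g n) := by
  rw [co_mul]
  refine tsum_congr fun n => ?_
  rw [co_adj]
  simp

theorem parseval (f : W) :
    2 * Real.pi * sq f = ∫ t in (0:ℝ)..(2 * Real.pi), ‖ev t f‖ ^ 2 := by
  have h := co_eq_integral (f * adj f) 0
  have h1 : ∀ t : ℝ, ev t (f * adj f) * Complex.exp (-(((0:ℤ):ℂ) * (t * Complex.I)))
      = ((‖ev t f‖ ^ 2 : ℝ) : ℂ) := by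
    intro t
    rw [ev_mul', ev_adj]
    simp only [Int.cast_zero, zero_mul, neg_zero, Complex.exp_zero, mul_one]
    rw [Complex.mul_conj, Complex.normSq_eq_norm_sq]
  simp only [h1] at h
  rw [intervalIntegral.integral_ofReal, co_mul_adj_zero] at h
  have h2 : (∑' n, co f n * starRingEnd ℂ (co f n)) = ((sq f : ℝ) : ℂ) := by
    unfold sq
    rw [Complex.ofReal_tsum]
    refine tsum_congr fun n => ?_
    rw [Complex.mul_conj, Complex.normSq_eq_norm_sq]
  rw [h2] at h
  exact_mod_cast h.symm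

theorem continuous_ev_t (f : W) : Continuous fun t : ℝ => ev t f := by
  have : (fun t : ℝ => ev t f) = fun t : ℝ => ∑' n : ℤ, co f n * Complex.exp (n * (t * Complex.I)) := by
    funext t; exact ev_eq t f
  rw [this]
  refine continuous_tsum (fun n => by fun_prop) (summable_co f) fun n t => ?_
  rw [norm_mul, show (n : ℂ) * (t * Complex.I) = ((n * t : ℝ) : ℂ) * Complex.I by push_cast; ring,
    Complex.norm_exp_ofReal_mul_I, mul_one]

theorem sq_family_mul_le {ι : Type*} (s : Finset ι) (m : ι → W) (f : W) (P : ℝ)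
    (hP : ∀ t, ∑ i ∈ s, ‖ev t (m i)‖ ^ 2 ≤ P) :
    ∑ i ∈ s, sq (m i * f) ≤ P * sq f := by
  have hpi : (0:ℝ) < 2 * Real.pi := by positivity
  have h1 : 2 * Real.pi * ∑ i ∈ s, sq (m i * f) ≤ 2 * Real.pi * (P * sq f) := by
    rw [Finset.mul_sum]
    calc ∑ i ∈ s, 2 * Real.pi * sq (m i * f)
        = ∑ i ∈ s, ∫ t in (0:ℝ)..(2 * Real.pi), ‖ev t (m i * f)‖ ^ 2 :=
          Finset.sum_congr rfl fun i _ => parseval _
      _ = ∫ t in (0:ℝ)..(2 * Real.pi), ∑ i ∈ s, ‖ev t (m i * f)‖ ^ 2 := by
          rw [intervalIntegral.integral_finsetSum]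
          intro i _
          exact ((continuous_ev_t (m i * f)).norm.pow 2).intervalIntegrable _ _
      _ ≤ ∫ t in (0:ℝ)..(2 * Real.pi), P * ‖ev t f‖ ^ 2 := by
          refine intervalIntegral.integral_mono_on hpi.le ?_ ?_ fun t _ => ?_
          · exact (continuous_finsetSum _ fun i _ =>
              (continuous_ev_t (m i * f)).norm.pow 2).intervalIntegrable _ _
          · exact (((continuous_ev_t f).norm.pow 2).const_mul P).intervalIntegrable _ _
          · have : ∀ i, ‖ev t (m i * f)‖ ^ 2 = ‖ev t (m i)‖ ^ 2 * ‖ev t f‖ ^ 2 := by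
              intro i; rw [ev_mul', norm_mul, mul_pow]
            simp only [this]
            rw [← Finset.sum_mul]
            exact mul_le_mul_of_nonneg_right (hP t) (by positivity)
      _ = 2 * Real.pi * (P * sq f) := by
          rw [intervalIntegral.integral_const_mul, ← parseval]
          ring
  exact le_of_mul_le_mul_left h1 hpi

/-- translation of the symbol by `t` -/
noncomputable def tr (t : ℝ) (f : W) : W :=
  mkW (fun n => co f n * Complex.exp (n * (t * Complex.I))) (by
    refine (summable_co f).congr fun n => ?_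
    rw [norm_mul, show (n : ℂ) * (t * Complex.I) = ((n * t : ℝ) : ℂ) * Complex.I by push_cast; ring,
      Complex.norm_exp_ofReal_mul_I, mul_one])

theorem co_tr (t : ℝ) (f : W) (n : ℤ) :
    co (tr t f) n = co f n * Complex.exp (n * (t * Complex.I)) := rfl

theorem ev_tr (s t : ℝ) (f : W) : ev s (tr t f) = ev (s + t) f := by
  rw [ev_eq, ev_eq]
  refine tsum_congr fun n => ?_
  rw [co_tr, mul_assoc, ← Complex.exp_add]
  congr 2
  push_cast
  ring

theorem tr_mul (t : ℝ) (f g : W) : tr t (f * g) = tr t f * tr t g :=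
  ext_ev fun s => by rw [ev_tr, ev_mul', ev_mul', ev_tr, ev_tr]

theorem tr_sub (t : ℝ) (f g : W) : tr t (f - g) = tr t f - tr t g :=
  ext_ev fun s => by rw [ev_tr, ev_sub, ev_sub, ev_tr, ev_tr]

theorem norm_tr (t : ℝ) (f : W) : ‖tr t f‖ = ‖f‖ := by
  rw [norm_eq, norm_eq]
  refine tsum_congr fun n => ?_
  rw [co_tr, norm_mul, show (n : ℂ) * (t * Complex.I) = ((n * t : ℝ) : ℂ) * Complex.I by push_cast; ring,
      Complex.norm_exp_ofReal_mul_I, mul_one]

end Pool.Agent.H20.Vin
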