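import Pool.Agent.H47.Vin.Rec

/-!
# The parameter instance
-/

namespace Pool.Agent.H47.Vin

open scoped BigOperators Real

theorem cube_le_forty (k : ℕ) : (k + 1) ^ 3 ≤ 40 ^ k := by
  induction k with
  | zero => norm_num
  | succ k ih =>
      have h1 : (k + 1 + 1) ^ 3 ≤ 8 * (k + 1) ^ 3 := by
        have : k + 1 + 1 ≤ 2 * (k + 1) := by omega
        calc (k + 1 + 1) ^ 3 ≤ (2 * (k + 1)) ^ 3 := Nat.pow_le_pow_left this 3
          _ = 8 * (k + 1) ^ 3 := by ring
      calc (k + 1 + 1) ^ 3 ≤ 8 * (k + 1) ^ 3 := h1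
        _ ≤ 40 * 40 ^ k := Nat.mul_le_mul (by norm_num) ih
        _ = 40 ^ (k + 1) := by rw [pow_succ]; ring

theorem forty_le (k : ℕ) : 40 ^ k ≤ 2 ^ (6 * k) := by
  rw [pow_mul]
  exact Nat.pow_le_pow_left (by norm_num) k

/-- bound for the band sum -/
theorem band_le (k : ℕ) : (64 * (1000 * (k + 1) ^ 2) + 1) * (100 * (k + 1)) ≤ 6400100 * 40 ^ k := by
  have h := cube_le_forty k
  have h1 : (64 * (1000 * (k + 1) ^ 2) + 1) * (100 * (k + 1)) ≤ 6400100 * (k + 1) ^ 3 := by
    have h2 : (64 * (1000 * (k + 1) ^ 2) + 1) * (100 * (k + 1))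
        = 6400000 * (k + 1) ^ 3 + 100 * (k + 1) := by ring
    have h3 : k + 1 ≤ (k + 1) ^ 3 := Nat.le_self_pow (by norm_num) _
    omega
  exact h1.trans (Nat.mul_le_mul_left _ h)

theorem sq_le_forty (k : ℕ) : (k + 1) ^ 2 ≤ 40 ^ k :=
  (Nat.pow_le_pow_right (by omega) (by norm_num)).trans (cube_le_forty k)

theorem lin_le_forty (k : ℕ) : k + 1 ≤ 40 ^ k :=
  (Nat.le_self_pow (by norm_num) _).trans (cube_le_forty k)

theorem exists_par : ∃ P : Par, (∀ k, P.p k = 2 ^ 40 * 40 ^ k) ∧ (∀ k, P.r k = 100 * (k + 1)) ∧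
    (∀ k, P.n k = 1000 * (k + 1) ^ 2) ∧ (∀ k, P.m k = 25 * P.p (k + 1)) ∧
    (∀ k, P.L k = 58 + 6 * k) ∧ (∀ k, P.A k = 3 * k ^ 2 + 61 * k) := by
  refine ⟨{
    p := fun k => 2 ^ 40 * 40 ^ k
    r := fun k => 100 * (k + 1)
    n := fun k => 1000 * (k + 1) ^ 2
    m := fun k => 25 * (2 ^ 40 * 40 ^ (k + 1))
    L := fun k => 58 + 6 * k
    A := fun k => 3 * k ^ 2 + 61 * k
    hp := ?_, hr := ?_, hn := ?_, hqm := ?_, hpm := ?_, hm2 := ?_, hL := ?_, hA0 := ?_, hA := ?_,
    hq := ?_, hin := ?_, hs1 := ?_, hs2 := ?_, hs3 := ?_, hs4 := ?_ }, fun _ => rfl, fun _ => rfl,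
    fun _ => rfl, fun _ => rfl, fun _ => rfl, fun _ => rfl⟩
  · intro k
    have := lin_le_forty k
    norm_num
    omega
  · intro k
    omega
  · intro k
    have : 1 ≤ (k + 1) ^ 2 := Nat.one_le_pow _ _ (by omega)
    omega
  · intro k
    have h := band_le k
    rw [pow_succ]
    norm_num
    omega
  · intro k
    rw [pow_succ]
    norm_num
    omega
  · intro k
    have := lin_le_forty (k + 1)
    norm_num
    omega
  · intro k
    have h1 := forty_le k
    have h2 := sq_le_forty k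
    have h3 : 2 ^ (58 + 6 * k) = 2 ^ 58 * 2 ^ (6 * k) := pow_add _ _ _
    rw [h3, pow_succ 40 k]
    norm_num
    have h4 := lin_le_forty k
    omega
  · simp
  · intro k
    ring
  · intro k
    have h := band_le k
    rw [pow_succ]
    norm_num
    have h4 := lin_le_forty k
    have h5 : (64 * (1000 * (k + 1) ^ 2) + 1) * (100 * (k + 1))
      ≤ (64 * (1000 * (k + 1 + 1) ^ 2) + 1) * (100 * (k + 1 + 1)) := by gcongr <;> omega
    omega
  · intro k
    have h := band_le k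
    have h5 : 64 * (1000 * (k + 1) ^ 2) * (100 * (k + 1))
      ≤ (64 * (1000 * (k + 1) ^ 2) + 1) * (100 * (k + 1)) := by gcongr; omega
    have h4 := lin_le_forty k
    rw [pow_succ 40 k]
    norm_num
    omega
  · intro k
    have h := band_le k
    have h2 := sq_le_forty k
    have h4 := lin_le_forty k
    rw [pow_succ 40 k]
    have h5 : (k + 1) ^ 2 = k ^ 2 + 2 * k + 1 := by ring
    norm_num
    rw [h5] at h2
    rw [h5] at h ⊢
    omega
  · intro k
    have h := band_le (k + 1)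
    have h2 := sq_le_forty k
    have h4 := lin_le_forty k
    have e1 : 40 ^ (k + 1) = 40 * 40 ^ k := by rw [pow_succ]; ring
    have e2 : 40 ^ (k + 1 + 1) = 1600 * 40 ^ k := by rw [pow_succ, e1]; ring
    rw [e2]
    rw [e1] at h ⊢
    have h5 : (k + 1) ^ 2 = k ^ 2 + 2 * k + 1 := by ring
    rw [h5] at h2 ⊢
    norm_num at h ⊢
    omega
  · intro k
    have h5 : (k + 1) ^ 2 = k ^ 2 + 2 * k + 1 := by ring
    have h6 : (k + 1 + 1) ^ 2 = k ^ 2 + 4 * k + 4 := by ring
    rw [h5, h6]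
    omega
  · intro k
    have h := band_le (k + 1)
    have h2 := sq_le_forty k
    have h4 := lin_le_forty k
    have e1 : 40 ^ (k + 1) = 40 * 40 ^ k := by rw [pow_succ]; ring
    rw [e1] at h ⊢
    have h5 : (k + 1) ^ 2 = k ^ 2 + 2 * k + 1 := by ring
    rw [h5] at h2 ⊢
    norm_num at h ⊢
    omega

/-- the parameters used in the construction (opaque, described by the following lemmas) -/
noncomputable def P0 : Par := Classical.choose exists_par

theorem P0_p (k : ℕ) : P0.p k = 2 ^ 40 * 40 ^ k := (Classical.choose_spec exists_par).1 k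
theorem P0_r (k : ℕ) : P0.r k = 100 * (k + 1) := (Classical.choose_spec exists_par).2.1 k
theorem P0_n (k : ℕ) : P0.n k = 1000 * (k + 1) ^ 2 := (Classical.choose_spec exists_par).2.2.1 k
theorem P0_m (k : ℕ) : P0.m k = 25 * P0.p (k + 1) := (Classical.choose_spec exists_par).2.2.2.1 k
theorem P0_L (k : ℕ) : P0.L k = 58 + 6 * k := (Classical.choose_spec exists_par).2.2.2.2.1 k
theorem P0_A (k : ℕ) : P0.A k = 3 * k ^ 2 + 61 * k := (Classical.choose_spec exists_par).2.2.2.2.2 k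

end Pool.Agent.H47.Vin
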