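import Pool.Agent.H47.Vin.Rec2

/-!
# Pointwise bound for the products `X_K`
-/

namespace Pool.Agent.H47.Vin

open scoped BigOperators Real

namespace Par

variable (P : Par)

theorem Hk_eq (k : ℕ) : P.Hk k = P.Ph k - P.cp k + P.e1 k + P.e2 k := by
  have h4 := res_Ici_add_Iio (2 ^ (P.m k - 1) : ℤ) (P.Ph k - 1)
  have h5 : res (Set.Iio (2 ^ (P.m k - 1) : ℤ)) (P.Ph k - 1)
      = -(res (Set.Iio (2 ^ (P.m k - 1) : ℤ))
          (phi (P.p k) (P.m k) * Gc (2 ^ P.m k) (xs (P.I k) 0)))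
        - res (Set.Iio (2 ^ (P.m k - 1) : ℤ)) ((1 - mono ((2 ^ P.m k : ℕ) : ℤ)) *
          ∑ u ∈ Finset.range (P.I k), (gb (2 ^ P.m k) (xs (P.I k) u)
            (kap (P.p k + (u + 1) * P.r k)) - Gc (2 ^ P.m k) (xs (P.I k) u))) := by
    rw [← res_neg, ← res_sub]
    congr 1
    unfold Ph Phi
    abel
  rw [h5] at h4
  unfold Hk e1 e2
  rw [eq_sub_of_add_eq h4]
  abel

theorem ev_cp (k : ℕ) (t : ℝ) : ∃ y : ℝ, 0 ≤ y ∧ y ≤ 1 ∧ ev t (P.cp k) = (y : ℂ) := by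
  have h : ∀ u : ℕ, ∃ c : ℝ, 0 ≤ c ∧ c ≤ 1 ∧ ev t (kap (P.p k + (u + 1) * P.r k)) = (c : ℂ) :=
    fun u => ev_kap_real (by have := P.hp1 k; omega) t
  choose c hc0 hc1 hc using h
  refine ⟨1 - ∑ u ∈ Finset.range (P.I k), xs (P.I k) u / 64 * c u, ?_, ?_, ?_⟩
  · have h1 : ∑ u ∈ Finset.range (P.I k), xs (P.I k) u / 64 * c u
        ≤ ∑ u ∈ Finset.range (P.I k), xs (P.I k) u / 64 :=
      Finset.sum_le_sum fun u _ => mul_le_of_le_one_right
        (by have := xs_pos (P.I k) u; positivity) (hc1 u)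
    rw [sum_xs] at h1
    have := xs_pos (P.I k) 0
    linarith
  · have h1 : 0 ≤ ∑ u ∈ Finset.range (P.I k), xs (P.I k) u / 64 * c u :=
      Finset.sum_nonneg fun u _ => mul_nonneg
        (by have := xs_pos (P.I k) u; positivity) (hc0 u)
    linarith
  · unfold cp
    rw [ev_sub, ev_one', ev_sum]
    push_cast
    congr 1
    refine Finset.sum_congr rfl fun u _ => ?_
    rw [ev_smul', hc u]

theorem ev_cp_in (k : ℕ) {t : ℝ} (ht : |t| ≤ Tp (P.p k + P.I k * P.r k + 1)) :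
    ev t (P.cp k) = ((xs (P.I k) 0 : ℝ) : ℂ) := by
  unfold cp
  rw [ev_sub, ev_one', ev_sum]
  have h : ∀ u ∈ Finset.range (P.I k), ev t (((xs (P.I k) u / 64 : ℝ) : ℂ)
      • kap (P.p k + (u + 1) * P.r k)) = ((xs (P.I k) u / 64 : ℝ) : ℂ) := by
    intro u hu
    have hu' := Finset.mem_range.1 hu
    rw [ev_smul', ev_kap_one (by have := P.hp1 k; omega), mul_one]
    refine ht.trans (Tp_anti ?_)
    have : (u + 1) * P.r k ≤ P.I k * P.r k := Nat.mul_le_mul_right _ (by omega)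
    omega
  rw [Finset.sum_congr rfl h, ← Complex.ofReal_sum, sum_xs]
  push_cast
  ring

theorem ev_cp_out (k : ℕ) {t : ℝ} (ht : Tp (P.p k) ≤ |t|) (ht' : |t| ≤ π) :
    ev t (P.cp k) = 1 := by
  unfold cp
  rw [ev_sub, ev_one', ev_sum]
  have h : ∀ u ∈ Finset.range (P.I k), ev t (((xs (P.I k) u / 64 : ℝ) : ℂ)
      • kap (P.p k + (u + 1) * P.r k)) = 0 := by
    intro u _
    rw [ev_smul', ev_kap_zero (by have := P.hp1 k; omega) ht' ((Tp_anti (by omega)).trans ht),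
      mul_zero]
  rw [Finset.sum_eq_zero h, sub_zero]

/-- the total error of stage `k + 1` -/
theorem err_le (k : ℕ) : ‖P.e1 (k + 1)‖ + ‖P.e2 (k + 1)‖ + xs (P.I (k + 1)) 0
    ≤ 2 * (1 / 2) ^ (k + 30) := by
  have hs2 := P.hs2 k
  have hs3 := P.hs3 k
  have h1 := P.norm_e1_le (k + 1)
  have h2 := P.norm_e2_le (k + 1)
  have hL : (40 * (2 + P.m (k + 1)) + 1024 * P.n (k + 1) + 4 : ℝ) ≤ 2 ^ P.L (k + 1) := by
    exact_mod_cast P.hL (k + 1)
  have hx0 := xs_pos (P.I (k + 1)) 0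
  have hx1 := xs_le_one (P.I (k + 1)) 0
  have hm0 : (0:ℝ) ≤ P.m (k + 1) := by positivity
  have hn0 : (0:ℝ) ≤ P.n (k + 1) := by positivity
  set L := P.L (k + 1) with hLdef
  -- first term
  have hq : P.q (k + 1) + L + (k + 30) ≤ P.m (k + 1) / 2 := by
    unfold q I
    omega
  have a1 : ‖P.e1 (k + 1)‖ ≤ 1 / 4 * (1 / 2) ^ (k + 30) := by
    refine h1.trans ?_
    have hI : (P.I (k + 1) : ℝ) ≤ 2 ^ L / 16 := by
      have : (P.I (k + 1) : ℝ) = 64 * P.n (k + 1) := by unfold I; push_cast; ring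
      rw [this]
      linarith
    have h3 : (2:ℝ) ^ P.q (k + 1) * 2 ^ L * 2 ^ (k + 30) ≤ 2 ^ (P.m (k + 1) / 2) := by
      rw [← pow_add, ← pow_add]
      exact pow_le_pow_right₀ (by norm_num) hq
    have h4 : (0:ℝ) < 2 ^ (P.m (k + 1) / 2) := by positivity
    have h5 : (0:ℝ) < 2 ^ (k + 30) := by positivity
    calc (P.I (k + 1) : ℝ) * (2 ^ P.q (k + 1) * (4 / 2 ^ (P.m (k + 1) / 2)))
        ≤ 2 ^ L / 16 * (2 ^ P.q (k + 1) * (4 / 2 ^ (P.m (k + 1) / 2))) := by gcongr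
      _ = (2 ^ P.q (k + 1) * 2 ^ L) / (4 * 2 ^ (P.m (k + 1) / 2)) := by
          field_simp
          ring
      _ ≤ 1 / 4 * (1 / 2) ^ (k + 30) := by
          rw [div_pow, one_pow, mul_one_div, div_div, div_le_div_iff₀ (by positivity) (by positivity)]
          nlinarith
  have hn : L + (k + 30) ≤ P.n (k + 1) / 2 := by omega
  have h6 : ((1 / 2 : ℝ)) ^ (P.n (k + 1) / 2) ≤ (1 / 2) ^ (L + (k + 30)) :=
    pow_le_pow_of_le_one (by norm_num) (by norm_num) hn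
  have h7 := P.sqrt_xi_le (k + 1)
  set y := Real.sqrt (xs (P.I (k + 1)) 0) with hy
  have hy0 : 0 ≤ y := Real.sqrt_nonneg _
  have hxy : xs (P.I (k + 1)) 0 ≤ y := by
    rw [hy, Real.le_sqrt hx0.le hx0.le]
    nlinarith
  have h8 : 2 ^ L * y ≤ (1 / 2) ^ (k + 30) := by
    calc (2:ℝ) ^ L * y ≤ 2 ^ L * (1 / 2) ^ (L + (k + 30)) :=
          mul_le_mul_of_nonneg_left (h7.trans h6) (by positivity)
      _ = (1 / 2) ^ (k + 30) := by
          rw [pow_add, ← mul_assoc, ← mul_pow]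
          norm_num
  have a2 : ‖P.e2 (k + 1)‖ + xs (P.I (k + 1)) 0 ≤ 2 ^ L * y := by
    have h9 : xs (P.I (k + 1)) 0 * (1 + P.m (k + 1)) ≤ y * (1 + P.m (k + 1)) :=
      mul_le_mul_of_nonneg_right hxy (by positivity)
    have h10 : (20 * (1 + (P.m (k + 1) : ℝ)) + 21) * y ≤ 2 ^ L * y :=
      mul_le_mul_of_nonneg_right (by linarith) hy0
    nlinarith
  have h11 : (0:ℝ) < (1 / 2) ^ (k + 30) := by positivity
  linarith

theorem Tp_lt {p q : ℕ} (h : p < q) : Tp q < Tp p := by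
  refine (Tp_anti (show p + 1 ≤ q from h)).trans_lt ?_
  rw [Tp_add]
  have := Tp_pos p
  linarith

/-- the three bounds for `H_{k+1}` -/
theorem norm_ev_Hk_all (k : ℕ) {t : ℝ} (ht : |t| ≤ π) :
    ‖ev t (P.Hk (k + 1))‖ ≤ 2 + 2 * (1 / 2) ^ (k + 30) := by
  have he := P.err_le k
  have hx0 := xs_pos (P.I (k + 1)) 0
  rw [Hk_eq, ev_add, ev_add, ev_sub]
  obtain ⟨y, hy0, hy1, hy⟩ := P.ev_cp (k + 1) t
  have h1 : ‖ev t (P.Ph (k + 1))‖ = 1 :=
    norm_ev_Phi (P.hp1 _) (P.hpm _) (P.hr _) (P.hI1 _) ht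
  have h2 : ‖ev t (P.cp (k + 1))‖ ≤ 1 := by
    rw [hy, Complex.norm_real, Real.norm_of_nonneg hy0]
    exact hy1
  have h3 := norm_ev_le t (P.e1 (k + 1))
  have h4 := norm_ev_le t (P.e2 (k + 1))
  calc _ ≤ ‖ev t (P.Ph (k + 1))‖ + ‖ev t (P.cp (k + 1))‖ + ‖ev t (P.e1 (k + 1))‖
        + ‖ev t (P.e2 (k + 1))‖ := by
        refine (norm_add_le _ _).trans (add_le_add_left ?_ _)
        refine (norm_add_le _ _).trans (add_le_add_left ?_ _)
        exact norm_sub_le _ _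
    _ ≤ _ := by linarith

theorem norm_ev_Hk_in (k : ℕ) {t : ℝ} (ht : |t| ≤ Tp (P.p (k + 2))) :
    ‖ev t (P.Hk (k + 1))‖ ≤ 1 + 2 * (1 / 2) ^ (k + 30) := by
  have he := P.err_le k
  have hx0 := xs_pos (P.I (k + 1)) 0
  have hin := P.hin (k + 1)
  have htpi : |t| ≤ π := ht.trans (Tp_le_pi (P.hp1 _))
  rw [Hk_eq, ev_add, ev_add, ev_sub]
  have h2 : ev t (P.cp (k + 1)) = ((xs (P.I (k + 1)) 0 : ℝ) : ℂ) := by
    refine P.ev_cp_in (k + 1) (ht.trans (Tp_anti ?_))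
    exact hin
  have h1 : ‖ev t (P.Ph (k + 1))‖ = 1 :=
    norm_ev_Phi (P.hp1 _) (P.hpm _) (P.hr _) (P.hI1 _) htpi
  have h2' : ‖ev t (P.cp (k + 1))‖ = xs (P.I (k + 1)) 0 := by
    rw [h2, Complex.norm_real, Real.norm_of_nonneg hx0.le]
  have h3 := norm_ev_le t (P.e1 (k + 1))
  have h4 := norm_ev_le t (P.e2 (k + 1))
  calc _ ≤ ‖ev t (P.Ph (k + 1))‖ + ‖ev t (P.cp (k + 1))‖ + ‖ev t (P.e1 (k + 1))‖
        + ‖ev t (P.e2 (k + 1))‖ := by
        refine (norm_add_le _ _).trans (add_le_add_left ?_ _)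
        refine (norm_add_le _ _).trans (add_le_add_left ?_ _)
        exact norm_sub_le _ _
    _ ≤ _ := by linarith

theorem norm_ev_Hk_out (k : ℕ) {t : ℝ} (ht : Tp (P.p (k + 1)) ≤ |t|) (htpi : |t| ≤ π) :
    ‖ev t (P.Hk (k + 1))‖ ≤ 2 * (1 / 2) ^ (k + 30) := by
  have he := P.err_le k
  have hx0 := xs_pos (P.I (k + 1)) 0
  rw [Hk_eq, ev_add, ev_add, ev_sub]
  have h1 : ev t (P.Ph (k + 1)) = 1 := ev_Phi_out (P.hp1 _) (P.hpm _) ht htpi
  have h2 : ev t (P.cp (k + 1)) = 1 := P.ev_cp_out (k + 1) ht htpi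
  rw [h1, h2, sub_self, zero_add]
  have h3 := norm_ev_le t (P.e1 (k + 1))
  have h4 := norm_ev_le t (P.e2 (k + 1))
  exact (norm_add_le _ _).trans (by linarith)

theorem norm_ev_X_aux (K : ℕ) {t : ℝ} (ht : |t| ≤ π) :
    ‖ev t (P.X K)‖ ≤ 2 * (3 / 2 - (1 / 2) ^ (K + 1)) ∧
      (|t| ≤ Tp (P.p (K + 1)) → ‖ev t (P.X K)‖ ≤ 3 / 2 - (1 / 2) ^ (K + 1)) := by
  induction K with
  | zero =>
      have h : ‖ev t (P.X 0)‖ = 1 := by
        have := norm_expM (2 ^ P.m 0) t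
        rw [X]
        push_cast at this
        exact this
      rw [h]
      norm_num
  | succ k ih =>
      obtain ⟨ih1, ih2⟩ := ih
      set b : ℝ := 3 / 2 - (1 / 2) ^ (k + 1) with hb
      set b' : ℝ := 3 / 2 - (1 / 2) ^ (k + 1 + 1) with hb'
      have e1 : (1 / 2 : ℝ) ^ (k + 1 + 1) = (1 / 2) ^ (k + 1) * (1 / 2) := pow_succ _ _
      have e2 : (1 / 2 : ℝ) ^ (k + 30) = (1 / 2) ^ (k + 1) * (1 / 2) ^ 29 := by
        rw [← pow_add]
      have hpos : (0:ℝ) < (1 / 2) ^ (k + 1) := by positivity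
      have hle1 : (1 / 2 : ℝ) ^ (k + 1) ≤ 1 / 2 := by
        rw [pow_succ]
        have : (1 / 2 : ℝ) ^ k ≤ 1 := pow_le_one₀ (by norm_num) (by norm_num)
        linarith
      set δ : ℝ := 2 * (1 / 2) ^ (k + 30) with hδ
      have hδ0 : 0 < δ := by positivity
      have hδ1 : δ ≤ (1 / 2) ^ (k + 1) * (1 / 8) := by
        rw [hδ, e2]
        have : (1 / 2 : ℝ) ^ 29 ≤ 1 / 16 := by norm_num
        nlinarith
      have hb1 : 1 ≤ b := by rw [hb]; linarith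
      have hb2 : b ≤ 3 / 2 := by rw [hb]; linarith
      have hbb : b * (1 + δ) ≤ b' := by
        rw [hb', e1]
        have : b * δ ≤ 3 / 2 * ((1 / 2) ^ (k + 1) * (1 / 8)) :=
          mul_le_mul hb2 hδ1 hδ0.le (by norm_num)
        rw [hb] at this ⊢
        nlinarith
      have hn : ‖ev t (P.X (k + 1))‖ = ‖ev t (P.X k)‖ * ‖ev t (P.Hk (k + 1))‖ := by
        rw [X, ev_mul', norm_mul]
      have hx0 : 0 ≤ ‖ev t (P.X k)‖ := norm_nonneg _
      have hh0 : 0 ≤ ‖ev t (P.Hk (k + 1))‖ := norm_nonneg _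
      have hpk : P.p (k + 1) < P.p (k + 1 + 1) := by
        have := P.hin (k + 1)
        omega
      rcases le_or_gt (Tp (P.p (k + 1))) |t| with h | h
      · have h1 := P.norm_ev_Hk_out k h ht
        refine ⟨?_, fun h2 => ?_⟩
        · rw [hn]
          have : ‖ev t (P.X k)‖ * ‖ev t (P.Hk (k + 1))‖ ≤ (2 * b) * δ :=
            mul_le_mul ih1 h1 hh0 (by linarith)
          nlinarith
        · exact absurd (h.trans h2) (not_le.2 (Tp_lt hpk))
      · have h1 := ih2 h.le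
        refine ⟨?_, fun h2 => ?_⟩
        · rw [hn]
          have h3 := P.norm_ev_Hk_all k ht
          have : ‖ev t (P.X k)‖ * ‖ev t (P.Hk (k + 1))‖ ≤ b * (2 + δ) :=
            mul_le_mul h1 h3 hh0 (by linarith)
          nlinarith
        · rw [hn]
          have h3 := P.norm_ev_Hk_in k h2
          have : ‖ev t (P.X k)‖ * ‖ev t (P.Hk (k + 1))‖ ≤ b * (1 + δ) :=
            mul_le_mul h1 h3 hh0 (by linarith)
          exact this.trans hbb

theorem norm_ev_X_le (K : ℕ) (t : ℝ) : ‖ev t (P.X K)‖ ≤ 3 := by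
  obtain ⟨n, hn⟩ := exists_red t
  rw [← ev_periodic t n]
  refine (P.norm_ev_X_aux K hn).1.trans ?_
  have : (0:ℝ) < (1 / 2) ^ (K + 1) := by positivity
  linarith

end Par

end Pool.Agent.H47.Vin
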